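import Pool.Agent.H6.S6H.Dat
import Pool.Agent.H21.FALL.Stmt

/-!
# The plateau of `R - varpi`: one family, the statement

Windows `w₀ + i Δ`, precisions of the directions `V₀ + i r`, of the normal forms `V₀ + i r + H` with
a constant `H`; one slope `s` for all windows, exact frame `a'`, `s`, `t'`. The base velocities are
those of `Pool.FALL`. The block is the pair of the normal positions. There is no visible part: the
pair is compared given the whole context, and on a typical line the pairs of slopes do not lie in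
a thin strip.
-/

set_option autoImplicit false

namespace Pool.S6H

open Finset Real
open Pool.Agent.H49.Ent Pool.Agent.H32.Dense Pool.STK Pool.KA Pool.KSAT Pool.K2S Pool.S6N
  Pool.FALL

/-- On a typical line the slopes do not lie in a strip of width `2 ^ (-x₀ X)`. -/
def NoStrip {Ω Λ : Type} [Fintype Ω] {c : ℕ} (p : Ω → ℝ) (L : Ω → Λ) (S : Ω → Fin c → ℝ) (X : ℕ)
    (x₀ ε : ℝ) : Prop :=
  Pool.KAF.Pr p {ω | ∃ (n : Fin c → ℝ) (z : ℝ), (∀ i, |n i| ≤ 1) ∧ (∃ i, |n i| = 1) ∧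
    1 / 2 < Pool.KAF.Pr (Pool.Agent.H49.Ent.cond p L (L ω))
      {ρ | |∑ i, n i * S ρ i - z| < (2 : ℝ) ^ (-(x₀ * X))}} ≤ ε

/-- **The data for the plateau.** -/
structure HIn {J : ℕ} (F : Fam 3 J) (A : F.Ω → Prop) (σ : Fin 3 → Fin 3)
    (N M X Δ r w₀ V₀ H q₀ : ℕ) (D e B c ca x₀ η κ ϖ ε : ℝ) (a t : ℕ → F.Ω → ℝ)
    (s a' t' : F.Ω → ℝ) : Prop where
  inj : Function.Injective σ
  law : IsLaw (Pool.Agent.H49.Ent.cond F.p A True)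
  XΔ : X ≤ Δ
  Xr : X ≤ r
  top : w₀ + N * Δ + X ≤ J
  D0 : 0 ≤ D
  D4 : D ≤ 4
  /-- the frames -/
  frg : ∀ i ≤ N, Frg F A (fw w₀ Δ i) (fv V₀ r i) H D (a i) s (t i) a' s t'
  /-- the time is full given the line -/
  time : (J : ℝ) * Real.log 2 - e ≤
    CH (Pool.Agent.H49.Ent.cond F.p A True) F.T (fun ω => (F.l ω, F.Z ω))
  /-- the exact frame has few digits given the first context of a window -/
  dig : ∀ i ≤ N, CH (Pool.Agent.H49.Ent.cond F.p A True) (fun ω => (a' ω, s ω, t' ω))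
    (fun ω => (ctx F σ (fw w₀ Δ i) (fq q₀ Δ r N i 0) (fv V₀ r i) H (a i) s (t i) ω, F.T ω)) ≤ B
  /-- the velocity is active, on large events -/
  act : ∀ i ≤ N, ∀ k < M, ∀ j : ℕ, (j + 1) * ⌊η * X⌋₊ ≤ X → ∀ E : F.Ω → Prop,
    ϖ ≤ Pe (Pool.Agent.H49.Ent.cond F.p A True) E →
    ca * ⌊η * X⌋₊ * Real.log 2 ≤
      CH (Pool.Agent.H49.Ent.cond (Pool.Agent.H49.Ent.cond F.p A True) E True)
      (Uni.dg ((j + 1) * ⌊η * X⌋₊)
        (om F σ (fq q₀ Δ r N i k) (fv V₀ r i) H X (a i) s (t i) 0))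
      (fun ω => (Uni.dg (j * ⌊η * X⌋₊)
        (om F σ (fq q₀ Δ r N i k) (fv V₀ r i) H X (a i) s (t i) 0) ω,
        ctx F σ (fw w₀ Δ i) (fq q₀ Δ r N i k) (fv V₀ r i) H (a i) s (t i) ω))
  /-- the pair of the normal positions is not full on large events -/
  row : ∀ i ≤ N, ∀ k < M, ∀ j : ℕ, (j + 1) * ⌊κ * X⌋₊ ≤ X → ∀ E : F.Ω → Prop,
    ϖ ≤ Pe (Pool.Agent.H49.Ent.cond F.p A True) E →
    CH (Pool.Agent.H49.Ent.cond (Pool.Agent.H49.Ent.cond F.p A True) E True)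
      (Pool.OCV.dgv ((j + 1) * ⌊κ * X⌋₊) (nu2 F σ (fw w₀ Δ i) (fq q₀ Δ r N i k) (fv V₀ r i) H X
        (a i) s (t i) a' s t'))
      (fun ω => (Pool.OCV.dgv (j * ⌊κ * X⌋₊) (nu2 F σ (fw w₀ Δ i) (fq q₀ Δ r N i k) (fv V₀ r i) H X
        (a i) s (t i) a' s t') ω,
        (ctx F σ (fw w₀ Δ i) (fq q₀ Δ r N i k) (fv V₀ r i) H (a i) s (t i) ω,
          T2 F (a i) s (t i) a' s t' ω))) ≤
      (2 - c) * ⌊κ * X⌋₊ * Real.log 2
  /-- the slopes of a line do not lie in a strip -/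
  str : ∀ i ≤ N, ∀ k < M, NoStrip (Pool.Agent.H49.Ent.cond F.p A True)
    (LL F σ (fw w₀ Δ i) (fq q₀ Δ r N i k) (fv V₀ r i) H X (a i) s (t i))
    (S2 (fv V₀ r i) H (a i) s (t i) a' s t') X x₀ ε

/-- **(HPLA, alpha)** one family. -/
def HOneStmt : Prop :=
  ∀ c ca : ℝ, 0 < c → 0 < ca → ∃ (x₀ η κ ϖ ι ε : ℝ) (N : ℕ), 0 < x₀ ∧ 0 < η ∧ η ≤ 1 ∧ 0 < κ ∧
    κ ≤ 1 ∧ 0 < ϖ ∧ 0 < ι ∧ 0 < ε ∧ ∀ β : ℝ, ∃ M X₀ : ℕ, ∀ (J : ℕ) (F : Fam 3 J)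
      (A : F.Ω → Prop) (σ : Fin 3 → Fin 3) (X Δ r w₀ V₀ H q₀ : ℕ) (D e B : ℝ)
      (a t : ℕ → F.Ω → ℝ) (s a' t' : F.Ω → ℝ), X₀ ≤ X → e ≤ ι * X → B ≤ β * X →
      HIn F A σ N M X Δ r w₀ V₀ H q₀ D e B c ca x₀ η κ ϖ ε a t s a' t' → False

end Pool.S6H
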