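import Pool.Agent.H6.S6H.H2H

/-!
# (H3') on the plateau: the chain with a fixed velocity
-/

set_option autoImplicit false

namespace Pool.S6H

open Finset Real
open Pool.Agent.H49.Ent Pool.Agent.H32.Dense Pool.STK Pool.KA Pool.KSAT Pool.K2S Pool.S6N

variable {J : ℕ}

section fam3

variable {F : Fam 3 J} {A : F.Ω → Prop} {σ : Fin 3 → Fin 3} {w q V H X : ℕ} {D : ℝ}
  {a s t a' s' t' : F.Ω → ℝ}

/-- The position and the normal velocity at the time of the sample. -/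
noncomputable def yb2 (F : Fam 3 J) (σ : Fin 3 → Fin 3) (w q V H X : ℕ)
    (a s t a' s' t' : F.Ω → ℝ) (ω : F.Ω) : ℤ × (Fin 2 → ℤ) :=
  (Uni.dg X (Pool.OCV.ytr (yy F σ w q V H X a s t 0) (om F σ q V H X a s t 0) (F.wt w)) ω,
    Pool.OCV.dgv X (Pool.OCV.btr (om F σ q V H X a s t 0)
      (fun ω i => om F σ q V H X a s t (Fin.succ i) ω) (S2 V H a s t a' s' t')) ω)

/-- The frames of two windows, seen from the smaller one. -/
theorem frg_near' (hF : Frg F A w V H D a s t a' s' t') {w₁ V₁ : ℕ} {a₁ s₁ t₁ : F.Ω → ℝ}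
    (hF₁ : Frg F A w₁ V₁ H D a₁ s₁ t₁ a' s' t') (hD : 0 ≤ D) (hV : V ≤ V₁)
    {ω : F.Ω} (hω : A ω) :
    |a ω - a₁ ω| ≤ 2 * (2 * D + 2 * D ^ 2 + 1) ^ 2 / 2 ^ V ∧
      |s ω - s₁ ω| ≤ 2 * (2 * D + 2 * D ^ 2 + 1) ^ 2 / 2 ^ H ∧
      |(t ω - t₁ ω) + (s ω - s₁ ω) * a₁ ω| ≤
        2 * (2 * D + 2 * D ^ 2 + 1) ^ 2 / 2 ^ (V + H) := by
  obtain ⟨D', hD'⟩ : ∃ D', D' = 2 * D + 2 * D ^ 2 + 1 := ⟨_, rfl⟩
  have hD'1 : 1 ≤ D' := by rw [hD']; nlinarith only [hD, sq_nonneg D]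
  obtain ⟨n1', n2', n3'⟩ := frg_near hF₁ hF hD hV le_rfl hω
  rw [← hD'] at n1' n2' n3'
  rw [← hD']
  have big : ∀ n : ℕ, D' / (2 : ℝ) ^ n ≤ 2 * D' ^ 2 / 2 ^ n := fun n =>
    div_le_div_of_nonneg_right (by nlinarith only [hD, hD']) (by positivity)
  have n1 : |a ω - a₁ ω| ≤ D' / 2 ^ V := by rw [abs_sub_comm]; exact n1'
  have n2 : |s ω - s₁ ω| ≤ D' / 2 ^ H := by rw [abs_sub_comm]; exact n2'
  refine ⟨n1.trans (big _), n2.trans (big _), ?_⟩
  have e : (t ω - t₁ ω) + (s ω - s₁ ω) * a₁ ω = -((t₁ ω - t ω) + (s₁ ω - s ω) * a ω) +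
    (s₁ ω - s ω) * (a ω - a₁ ω) := by ring
  rw [e]
  refine (abs_add_le _ _).trans ?_
  rw [abs_neg]
  have g2 : |(s₁ ω - s ω) * (a ω - a₁ ω)| ≤ (D' / 2 ^ H) * (D' / 2 ^ V) := by
    rw [abs_mul]
    exact mul_le_mul n2' n1 (abs_nonneg _) (by positivity)
  have g3 : (D' / 2 ^ H) * (D' / 2 ^ V) = D' ^ 2 / 2 ^ (V + H) := by
    rw [pow_add]
    field_simp
  have g4 : D' / (2 : ℝ) ^ (V + H) ≤ D' ^ 2 / 2 ^ (V + H) :=
    div_le_div_of_nonneg_right (by nlinarith only [hD, hD']) (by positivity)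
  have g5 : 2 * D' ^ 2 / (2 : ℝ) ^ (V + H) = D' ^ 2 / 2 ^ (V + H) + D' ^ 2 / 2 ^ (V + H) := by
    ring
  rw [g5]
  rw [g3] at g2
  linarith only [n3', g2, g4]

/-- The context of a smaller window contains the context. -/
theorem ctx_down (hF : Frg F A w V H D a s t a' s' t') {w₁ V₁ : ℕ}
    {a₁ s₁ t₁ : F.Ω → ℝ} (hF₁ : Frg F A w₁ V₁ H D a₁ s₁ t₁ a' s' t')
    (hD : 0 ≤ D) (hQ : IsLaw (Pool.Agent.H49.Ent.cond F.p A True)) (hw₁ : w₁ ≤ J)
    (hwX : w ≤ w₁) (hV : V ≤ V₁) :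
    CH (Pool.Agent.H49.Ent.cond F.p A True) (ctx F σ w q V H a s t)
        (fun ω => (ctx F σ w₁ q V₁ H a₁ s₁ t₁ ω, gt F a' s' t' ω)) ≤
      3 * Real.log (2 * D + 1) +
        2 * (3 * Real.log (4 * 3 * (2 * (2 * D + 2 * D ^ 2 + 1) ^ 2) + 3)) := by
  have hA : ∀ ω, 0 < Pool.Agent.H49.Ent.cond F.p A True ω → A ω := fun ω hω =>
    of_eq_true ((cond_pos_iff F.isLaw.nonneg A True ω).1 hω).2
  have h0 := hQ.nonneg
  obtain ⟨D', hD'⟩ : ∃ D', D' = 2 * (2 * D + 2 * D ^ 2 + 1) ^ 2 := ⟨_, rfl⟩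
  have hD'1 : 1 ≤ D' := by
    rw [hD']
    have : 1 ≤ 2 * D + 2 * D ^ 2 + 1 := by nlinarith only [hD, sq_nonneg D]
    nlinarith only [hD]
  have bd : ∀ (x : ℝ) (n u v : ℕ), |x| ≤ D' / 2 ^ n → v ≤ n + u → |x| ≤ D' * 2 ^ u / 2 ^ v := by
    intro x n u v hx huv
    refine hx.trans ?_
    rw [div_le_div_iff₀ (by positivity) (by positivity)]
    have e1 : (2 : ℝ) ^ v ≤ 2 ^ (n + u) := pow_le_pow_right₀ (by norm_num) huv
    rw [pow_add] at e1
    have e2 : 0 ≤ D' := by linarith only [hD'1]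
    nlinarith only [e1, e2, mul_le_mul_of_nonneg_left e1 e2]
  have k1 : CH (Pool.Agent.H49.Ent.cond F.p A True)
      (F.mlb w (fun i => cv q V H i + w) (cv q V H) (fr σ a s t))
      (fun ω => ((t ω, (s ω, a ω)), (ctx F σ w₁ q V₁ H a₁ s₁ t₁ ω, gt F a' s' t' ω))) ≤
      2 * ((3 : ℕ) * Real.log (4 * (3 : ℕ) * D' + 3)) := by
    refine Box.CH_mlb (F := F) (g := w₁) (g' := w) (k := fun i => cv q V₁ H i + w₁)
      (c := cv q V₁ H) (kk := fun i => cv q V₁ H i + w) (M := fr σ a₁ s₁ t₁) hQ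
      hw₁ (by omega) (by linarith only [hD'1]) (fun _ => by omega) (fun i => by
        have : min w₁ w = w := min_eq_right (by omega)
        rw [this]) ?_ _ ?_
    · intro ω hω
      obtain ⟨n1, n2, n3⟩ := frg_near' hF hF₁ hD hV (hA ω hω)
      rw [← hD'] at n1 n2 n3
      refine ⟨_, Box.cg_tfr σ (a₁ ω) (s₁ ω) (t₁ ω) (a ω) (s ω) (t ω), ?_, ?_⟩
      · refine Box.tch_le hD'1 ?_ ?_ ?_ ?_ ?_ ?_
        · show q + w ≤ q + w
          omega
        · show q + V + w ≤ q + V₁ + w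
          omega
        · show q + (V + H) + w ≤ q + (V₁ + H) + w
          omega
        · refine bd _ _ _ _ n1 ?_
          show q + V + w ≤ V + (q + w)
          omega
        · refine bd _ _ _ _ n2 ?_
          show q + (V + H) + w ≤ H + (q + V₁ + w)
          omega
        · refine bd _ _ _ _ n3 ?_
          show q + (V + H) + w ≤ V + H + (q + w)
          omega
      · refine Box.tch_le hD'1 ?_ ?_ ?_ ?_ ?_ ?_
        · show q ≤ q
          omega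
        · show q + V ≤ q + V₁
          omega
        · show q + (V + H) ≤ q + (V₁ + H)
          omega
        · refine bd _ _ _ _ n1 ?_
          show q + V ≤ V + q
          omega
        · refine bd _ _ _ _ n2 ?_
          show q + (V + H) ≤ H + (q + V₁)
          omega
        · refine bd _ _ _ _ n3 ?_
          show q + (V + H) ≤ V + H + q
          omega
    · intro ω ω' _ _ h
      have h1 := Prod.ext_iff.mp h
      have h2 := Prod.ext_iff.mp h1.2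
      have h3 := Prod.ext_iff.mp h1.1
      have h4 := Prod.ext_iff.mp h3.2
      refine ⟨h2.1, Lab.T1_of_T (gt_ext h2.2).1, ?_⟩
      show tfr σ (a ω) (s ω) (t ω) = tfr σ (a ω') (s ω') (t ω')
      have e1 : t ω = t ω' := h3.1
      have e2 : s ω = s ω' := h4.1
      have e3 : a ω = a ω' := h4.2
      rw [e1, e2, e3]
  exact by
   have k2 := CH_fr hF hD hQ (ctx F σ w₁ q V₁ H a₁ s₁ t₁)
   have k3 := CH_le_add h0 (ctx F σ w q V H a s t) (fun ω => (t ω, (s ω, a ω)))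
     (fun ω => (ctx F σ w₁ q V₁ H a₁ s₁ t₁ ω, gt F a' s' t' ω))
   have k4 : CH (Pool.Agent.H49.Ent.cond F.p A True) (ctx F σ w q V H a s t)
       (fun ω => ((t ω, (s ω, a ω)), (ctx F σ w₁ q V₁ H a₁ s₁ t₁ ω, gt F a' s' t' ω))) ≤
       CH (Pool.Agent.H49.Ent.cond F.p A True)
         (F.mlb w (fun i => cv q V H i + w) (cv q V H) (fr σ a s t))
         (fun ω => ((t ω, (s ω, a ω)), (ctx F σ w₁ q V₁ H a₁ s₁ t₁ ω, gt F a' s' t' ω))) :=
     le_rfl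
   rw [← hD']
   push_cast at k1
   linarith only [k1, k2, k3, k4]

theorem scale_le {X : ℕ} {x y c : ℝ} (h : |x - y| ≤ c / 2 ^ X) :
    |2 ^ X * x - 2 ^ X * y| ≤ c := by
  have hX : (0 : ℝ) < 2 ^ X := by positivity
  rw [← mul_sub, abs_mul, abs_of_pos hX]
  calc (2 : ℝ) ^ X * |x - y| ≤ 2 ^ X * (c / 2 ^ X) := mul_le_mul_of_nonneg_left h hX.le
    _ = c := by field_simp

/-- Two lines in the context of a smaller window, at the same time: the positions. -/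
theorem x_near₁ (hw : w ≤ J) {ω ω' : F.Ω}
    (h : ctx F σ w q V H a s t ω = ctx F σ w q V H a s t ω') (hT : F.T ω = F.T ω') :
    |2 ^ (q + w) * F.x ω (σ 0) - 2 ^ (q + w) * F.x ω' (σ 0)| ≤ 2 := by
  obtain ⟨h1, -, -⟩ := pos_form (σ := σ) hw q V H a s t a s t ω
  obtain ⟨h1', -, -⟩ := pos_form (σ := σ) hw q V H a s t a s t ω'
  have k := mkn_ctx h hT
  have m1 := mx_mem (w := w) (q := q) (V := V) (H := H) (σ := σ) (a := a) (s := s) (t := t) ω 0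
  have m2 := mx_mem (w := w) (q := q) (V := V) (H := H) (σ := σ) (a := a) (s := s) (t := t) ω' 0
  rw [h1, h1', k, abs_le]
  constructor <;> linarith only [m1, m2, m1.1, m1.2, m2.1, m2.2]

theorem prod_diff {S c₀ x y x' y' : ℝ} (hS : |S| ≤ c₀) (hx : |x - x'| ≤ 1) (hy : |y - y'| ≤ 1) :
    |(x - S * y) - (x' - S * y')| ≤ 1 + c₀ := by
  have e : (x - S * y) - (x' - S * y') = (x - x') - S * (y - y') := by ring
  rw [e]
  refine (abs_sub _ _).trans (add_le_add hx ?_)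
  rw [abs_mul]
  calc |S| * |y - y'| ≤ c₀ * 1 := mul_le_mul hS hy (abs_nonneg _) ((abs_nonneg _).trans hS)
    _ = c₀ := mul_one _

/-- Two lines in a context, with the same generalised time: the velocities modulo the direction
of the fan. -/
theorem vel_near (hF : Frg F A w V H D a s t a' s' t') (hσ : Function.Injective σ) {ω ω' : F.Ω}
    (hω : A ω) (h : ctx F σ w q V H a s t ω = ctx F σ w q V H a s t ω')
    (h' : gt F a' s' t' ω = gt F a' s' t' ω') :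
    |2 ^ (q + V) * Eu σ (a' ω) (F.d ω) - 2 ^ (q + V) * Eu σ (a' ω) (F.d ω')| ≤
      1 + (D + D * D) ∧
    |2 ^ (q + (V + H)) * (EN σ (a' ω) (s' ω) (t' ω) (F.d ω) - s ω * Eu σ (a' ω) (F.d ω)) -
      2 ^ (q + (V + H)) * (EN σ (a' ω) (s' ω) (t' ω) (F.d ω') - s ω * Eu σ (a' ω) (F.d ω'))| ≤
      1 + (D + D * D) := by
  obtain ⟨-, h1, h2⟩ := vel_form (σ := σ) q V H a s t a' s' t' ω
  obtain ⟨-, h1', h2'⟩ := vel_form (σ := σ) q V H a s t a' s' t' ω'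
  obtain ⟨f1, f2, f3⟩ := ctx_frm hσ h
  obtain ⟨g0, g1, g2, g3⟩ := gt_ext h'
  have k1 := S2_det (V := V) (H := H) ⟨f1, f2, f3⟩ h'
  have k2 : vc2 F σ q V H a s t a' s' t' ω = vc2 F σ q V H a s t a' s' t' ω' :=
    vc2_det h (Prod.ext (by simp only [T2, f1, f2, f3]) h')
  rw [← g1, ← k1, ← k2] at h1'
  rw [← f2, ← g1, ← g2, ← g3, ← k1, ← k2] at h2'
  have md : ∀ (v v' : F.Ω) (i : Fin 3), |F.md (cv q V H) (fr σ a s t) v i -
      F.md (cv q V H) (fr σ a s t) v' i| ≤ 1 := by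
    intro v v' i
    have m1 := Box.md_mem F (cv q V H) (fr σ a s t) v i
    have m2 := Box.md_mem F (cv q V H) (fr σ a s t) v' i
    rw [abs_le]
    constructor <;> linarith only [m1, m2, m1.1, m1.2, m2.1, m2.2]
  constructor
  · rw [h1, h1', add_sub_add_right_eq_sub]
    exact prod_diff (S2_le hF hω 0) (md _ _ _) (md _ _ _)
  · rw [h2, h2', add_sub_add_right_eq_sub]
    exact prod_diff (S2_le hF hω 1) (md _ _ _) (md _ _ _)

/-- The rounded normal velocities. -/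
theorem btr_near (hF : Frg F A w V H D a s t a' s' t') {ω : F.Ω} (hω : A ω) :
    |Pool.OCV.btr (om F σ q V H X a s t 0) (fun ω i => om F σ q V H X a s t (Fin.succ i) ω)
      (S2 V H a s t a' s' t') ω 0 - (2 ^ (q + V) * Eu σ (a' ω) (F.d ω) -
        vc2 F σ q V H a s t a' s' t' ω 0)| ≤ (1 + (D + D * D)) / 2 ^ X ∧
    |Pool.OCV.btr (om F σ q V H X a s t 0) (fun ω i => om F σ q V H X a s t (Fin.succ i) ω)
      (S2 V H a s t a' s' t') ω 1 - (2 ^ (q + (V + H)) * (EN σ (a' ω) (s' ω) (t' ω) (F.d ω) -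
        s ω * Eu σ (a' ω) (F.d ω)) - vc2 F σ q V H a s t a' s' t' ω 1)| ≤
      (1 + (D + D * D)) / 2 ^ X := by
  obtain ⟨-, h1, h2⟩ := vel_form (σ := σ) q V H a s t a' s' t' ω
  have hD : 0 ≤ D + D * D := (abs_nonneg _).trans (S2_le hF hω 0)
  have key : ∀ i : Fin 2, |Pool.OCV.btr (om F σ q V H X a s t 0)
      (fun ω i => om F σ q V H X a s t (Fin.succ i) ω) (S2 V H a s t a' s' t') ω i -
      (F.md (cv q V H) (fr σ a s t) ω i.succ -
      S2 V H a s t a' s' t' ω i * F.md (cv q V H) (fr σ a s t) ω 0)| ≤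
      (1 + (D + D * D)) / 2 ^ X := by
    intro i
    have e1 : Pool.OCV.btr (om F σ q V H X a s t 0)
      (fun ω i => om F σ q V H X a s t (Fin.succ i) ω) (S2 V H a s t a' s' t') ω i -
      (F.md (cv q V H) (fr σ a s t) ω i.succ -
      S2 V H a s t a' s' t' ω i * F.md (cv q V H) (fr σ a s t) ω 0) =
      -(F.md (cv q V H) (fr σ a s t) ω i.succ - om F σ q V H X a s t i.succ ω) +
      S2 V H a s t a' s' t' ω i * (F.md (cv q V H) (fr σ a s t) ω 0 -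
        om F σ q V H X a s t 0 ω) := by
      unfold Pool.OCV.btr
      ring
    rw [e1]
    refine (abs_add_le _ _).trans ?_
    rw [abs_neg, abs_mul]
    have k1 := md_om (q := q) (V := V) (H := H) (X := X) (σ := σ) (a := a) (s := s)
      (t := t) ω i.succ
    have k2 := md_om (q := q) (V := V) (H := H) (X := X) (σ := σ) (a := a) (s := s)
      (t := t) ω 0
    have k3 := S2_le hF hω i
    have k4 := mul_le_mul k3 k2 (abs_nonneg _) hD
    have e2 : (1 + (D + D * D)) / (2 : ℝ) ^ X = 1 / 2 ^ X + (D + D * D) * (1 / 2 ^ X) := by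
      ring
    rw [e2]
    exact add_le_add k1 k4
  refine ⟨?_, ?_⟩
  · have e : 2 ^ (q + V) * Eu σ (a' ω) (F.d ω) - vc2 F σ q V H a s t a' s' t' ω 0 =
      F.md (cv q V H) (fr σ a s t) ω 1 -
      S2 V H a s t a' s' t' ω 0 * F.md (cv q V H) (fr σ a s t) ω 0 := by
      rw [h1]
      ring
    rw [e]
    exact key 0
  · have e : 2 ^ (q + (V + H)) * (EN σ (a' ω) (s' ω) (t' ω) (F.d ω) -
        s ω * Eu σ (a' ω) (F.d ω)) - vc2 F σ q V H a s t a' s' t' ω 1 =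
      F.md (cv q V H) (fr σ a s t) ω 2 -
      S2 V H a s t a' s' t' ω 1 * F.md (cv q V H) (fr σ a s t) ω 0 := by
      rw [h2]
      ring
    rw [e]
    exact key 1

/-- The velocities modulo the direction of the fan, in the frame of a larger window. -/
theorem vel_shift {V₁ : ℕ} {s₁ : F.Ω → ℝ} (hV : V + X ≤ V₁) {c c' : ℝ} {ω : F.Ω}
    (hc : 0 ≤ c)
    (hs : |s ω - s₁ ω| ≤ c' / 2 ^ H) {z z' : Fin 3 → ℝ}
    (h1 : |2 ^ (q + V₁) * Eu σ (a' ω) z - 2 ^ (q + V₁) * Eu σ (a' ω) z'| ≤ c)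
    (h2 : |2 ^ (q + (V₁ + H)) * (EN σ (a' ω) (s' ω) (t' ω) z - s₁ ω * Eu σ (a' ω) z) -
      2 ^ (q + (V₁ + H)) * (EN σ (a' ω) (s' ω) (t' ω) z' - s₁ ω * Eu σ (a' ω) z')| ≤ c) :
    |2 ^ (q + V) * Eu σ (a' ω) z - 2 ^ (q + V) * Eu σ (a' ω) z'| ≤ c / 2 ^ X ∧
    |2 ^ (q + (V + H)) * (EN σ (a' ω) (s' ω) (t' ω) z - s ω * Eu σ (a' ω) z) -
      2 ^ (q + (V + H)) * (EN σ (a' ω) (s' ω) (t' ω) z' - s ω * Eu σ (a' ω) z')| ≤
      (c + c' * c) / 2 ^ X := by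
  obtain ⟨k, hk⟩ := Nat.exists_eq_add_of_le hV
  have p1 : (0 : ℝ) < 2 ^ (X + k) := by positivity
  have e1 : (2 : ℝ) ^ (q + V₁) = 2 ^ (X + k) * 2 ^ (q + V) := by
    rw [← pow_add, hk]
    congr 1
    omega
  have e2 : (2 : ℝ) ^ (q + (V₁ + H)) = 2 ^ (X + k) * 2 ^ (q + (V + H)) := by
    rw [← pow_add, hk]
    congr 1
    omega
  have le : ∀ {x : ℝ}, |2 ^ (X + k) * x| ≤ c → |x| ≤ c / 2 ^ X := by
    intro x hx
    rw [abs_mul, abs_of_pos p1] at hx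
    rw [le_div_iff₀ (by positivity)]
    have e : (2 : ℝ) ^ (X + k) = 2 ^ X * 2 ^ k := pow_add _ _ _
    rw [e] at hx
    have o : (1 : ℝ) ≤ 2 ^ k := one_le_pow₀ (by norm_num)
    have := abs_nonneg x
    have p2 : (0 : ℝ) < 2 ^ X := by positivity
    have : |x| * 2 ^ X ≤ 2 ^ X * 2 ^ k * |x| := by nlinarith only [o, p2, this, mul_nonneg p2.le this]
    linarith only [hx, this]
  have r1 : |2 ^ (q + V) * Eu σ (a' ω) z - 2 ^ (q + V) * Eu σ (a' ω) z'| ≤ c / 2 ^ X := by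
    refine le ?_
    have : 2 ^ (X + k) * (2 ^ (q + V) * Eu σ (a' ω) z - 2 ^ (q + V) * Eu σ (a' ω) z') =
      2 ^ (q + V₁) * Eu σ (a' ω) z - 2 ^ (q + V₁) * Eu σ (a' ω) z' := by
      rw [e1]
      ring
    rw [this]
    exact h1
  have r2 : |2 ^ (q + (V + H)) * (EN σ (a' ω) (s' ω) (t' ω) z - s₁ ω * Eu σ (a' ω) z) -
      2 ^ (q + (V + H)) * (EN σ (a' ω) (s' ω) (t' ω) z' - s₁ ω * Eu σ (a' ω) z')| ≤
      c / 2 ^ X := by
    refine le ?_
    have : 2 ^ (X + k) * (2 ^ (q + (V + H)) * (EN σ (a' ω) (s' ω) (t' ω) z -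
      s₁ ω * Eu σ (a' ω) z) - 2 ^ (q + (V + H)) * (EN σ (a' ω) (s' ω) (t' ω) z' -
      s₁ ω * Eu σ (a' ω) z')) =
      2 ^ (q + (V₁ + H)) * (EN σ (a' ω) (s' ω) (t' ω) z - s₁ ω * Eu σ (a' ω) z) -
      2 ^ (q + (V₁ + H)) * (EN σ (a' ω) (s' ω) (t' ω) z' - s₁ ω * Eu σ (a' ω) z') := by
      rw [e2]
      ring
    rw [this]
    exact h2
  exact by
   refine ⟨r1, ?_⟩
   have e3 : 2 ^ (q + (V + H)) * (EN σ (a' ω) (s' ω) (t' ω) z - s ω * Eu σ (a' ω) z) -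
       2 ^ (q + (V + H)) * (EN σ (a' ω) (s' ω) (t' ω) z' - s ω * Eu σ (a' ω) z') =
       (2 ^ (q + (V + H)) * (EN σ (a' ω) (s' ω) (t' ω) z - s₁ ω * Eu σ (a' ω) z) -
       2 ^ (q + (V + H)) * (EN σ (a' ω) (s' ω) (t' ω) z' - s₁ ω * Eu σ (a' ω) z')) -
       (2 ^ H * (s ω - s₁ ω)) * (2 ^ (q + V) * Eu σ (a' ω) z - 2 ^ (q + V) * Eu σ (a' ω) z') := by
     have e : (2 : ℝ) ^ (q + (V + H)) = 2 ^ H * 2 ^ (q + V) := by
       rw [← pow_add]
       congr 1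
       omega
     rw [e]
     ring
   rw [e3, add_div]
   refine (abs_sub _ _).trans (add_le_add r2 ?_)
   rw [abs_mul]
   have hc' : 0 ≤ c' := by
     have := (abs_nonneg _).trans hs
     by_contra hh
     push Not at hh
     have : c' / (2 : ℝ) ^ H < 0 := div_neg_of_neg_of_pos hh (by positivity)
     linarith
   have ds : |2 ^ H * (s ω - s₁ ω)| ≤ c' := by
     rw [abs_mul, abs_of_pos (by positivity : (0 : ℝ) < 2 ^ H)]
     calc (2 : ℝ) ^ H * |s ω - s₁ ω| ≤ 2 ^ H * (c' / 2 ^ H) :=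
           mul_le_mul_of_nonneg_left hs (by positivity)
       _ = c' := by field_simp
   have e5 : c' * c / (2 : ℝ) ^ X = c' * (c / 2 ^ X) := by ring
   rw [e5]
   exact mul_le_mul ds r1 (abs_nonneg _) hc'

/-- The position and the normal velocity of the line are known in the context of a smaller
window. -/
theorem yb2_down (hσ : Function.Injective σ) (hF : Frg F A w V H D a s t a' s' t')
    {w₁ V₁ : ℕ} {a₁ s₁ t₁ : F.Ω → ℝ} (hF₁ : Frg F A w₁ V₁ H D a₁ s₁ t₁ a' s' t')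
    (hD : 0 ≤ D) (hQ : IsLaw (Pool.Agent.H49.Ent.cond F.p A True)) (hw : w ≤ J) (hw₁ : w₁ ≤ J)
    (hwX : w + X ≤ w₁) (hV : V + X ≤ V₁) :
    CH (Pool.Agent.H49.Ent.cond F.p A True) (yb2 F σ w q V H X a s t a' s' t')
        (fun ω => (ctx F σ w q V H a s t ω, (ctx F σ w₁ q V₁ H a₁ s₁ t₁ ω, gt F a' s' t' ω))) ≤
      3 * Real.log (2 * (3 * (1 + (D + D * D)) +
        2 * (2 * D + 2 * D ^ 2 + 1) ^ 2 * (1 + (D + D * D)) + 6) + 1) := by
  have hA : ∀ ω, 0 < Pool.Agent.H49.Ent.cond F.p A True ω → A ω := fun ω hω =>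
    of_eq_true ((cond_pos_iff F.isLaw.nonneg A True ω).1 hω).2
  have h0 := hQ.nonneg
  obtain ⟨c, hc⟩ : ∃ c, c = 1 + (D + D * D) := ⟨_, rfl⟩
  have hc0 : 1 ≤ c := by rw [hc]; nlinarith only [hD]
  obtain ⟨D', hD'⟩ : ∃ D', D' = 2 * (2 * D + 2 * D ^ 2 + 1) ^ 2 := ⟨_, rfl⟩
  have hD'0 : 0 ≤ D' := by rw [hD']; positivity
  rw [← hc, ← hD']
  have hpos : 0 ≤ D' * c := mul_nonneg hD'0 (by linarith only [hc0])
  obtain ⟨K, hK⟩ : ∃ K, K = 3 * c + D' * c + 6 := ⟨_, rfl⟩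
  rw [← hK]
  have k1 : CH (Pool.Agent.H49.Ent.cond F.p A True)
      (Uni.dg X (Pool.OCV.ytr (yy F σ w q V H X a s t 0) (om F σ q V H X a s t 0) (F.wt w)))
      (fun ω => (ctx F σ w q V H a s t ω, (ctx F σ w₁ q V₁ H a₁ s₁ t₁ ω, gt F a' s' t' ω))) ≤
      Real.log (2 * K + 1) := by
    refine Lab.CH_int_const (F := F) hQ _ _ ?_
    intro ω ω' hω hω' h
    obtain ⟨h1, h2⟩ := Prod.ext_iff.mp h
    obtain ⟨h3, h4⟩ := Prod.ext_iff.mp h2
    simp only at h1 h3 h4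
    obtain ⟨g0, g1, g2, g3⟩ := gt_ext h4
    have n1 := x_near₁ (q := q) (σ := σ) (V := V₁) (H := H) (a := a₁) (s := s₁) (t := t₁) hw₁ h3 g0
    obtain ⟨p1, -, -⟩ := pos_form (σ := σ) hw q V H a s t a s t ω
    obtain ⟨p1', -, -⟩ := pos_form (σ := σ) hw q V H a s t a s t ω'
    have kk := congrFun (mkn_ctx h1 g0) 0
    have y1 := scale_le (mx_yy (w := w) (q := q) (V := V) (H := H) (X := X) (σ := σ) (a := a)
      (s := s) (t := t) ω 0)
    have y2 := scale_le (mx_yy (w := w) (q := q) (V := V) (H := H) (X := X) (σ := σ) (a := a)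
      (s := s) (t := t) ω' 0)
    obtain ⟨k, hk⟩ := Nat.exists_eq_add_of_le hwX
    have e1 : (2 : ℝ) ^ (q + w₁) = 2 ^ k * (2 ^ X * 2 ^ (q + w)) := by
      rw [← pow_add, ← pow_add, hk]
      congr 1
      omega
    have n2 : |2 ^ X * (2 ^ (q + w) * F.x ω (σ 0)) - 2 ^ X * (2 ^ (q + w) * F.x ω' (σ 0))| ≤
        2 := by
      have e2 : 2 ^ (q + w₁) * F.x ω (σ 0) - 2 ^ (q + w₁) * F.x ω' (σ 0) =
        2 ^ k * (2 ^ X * (2 ^ (q + w) * F.x ω (σ 0)) -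
          2 ^ X * (2 ^ (q + w) * F.x ω' (σ 0))) := by
        rw [e1]
        ring
      rw [e2, abs_mul, abs_of_pos (by positivity : (0 : ℝ) < 2 ^ k)] at n1
      have o : (1 : ℝ) ≤ 2 ^ k := one_le_pow₀ (by norm_num)
      have := abs_nonneg (2 ^ X * (2 ^ (q + w) * F.x ω (σ 0)) -
          2 ^ X * (2 ^ (q + w) * F.x ω' (σ 0)))
      nlinarith only [n1, o, this]
    refine dg_near (c := K - 1) ?_ |>.trans (by linarith only)
    rw [p1, p1', kk] at n2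
    unfold Pool.OCV.ytr
    rw [hK]
    rw [abs_le] at n2 y1 y2 ⊢
    constructor <;> linarith only [hc0, hpos, y1, y2, n2, n2.1, n2.2, y1.1, y1.2, y2.1, y2.2]
  exact by
   have k2 : CH (Pool.Agent.H49.Ent.cond F.p A True)
       (Pool.OCV.dgv X (Pool.OCV.btr (om F σ q V H X a s t 0)
         (fun ω i => om F σ q V H X a s t (Fin.succ i) ω) (S2 V H a s t a' s' t')))
       (fun ω => (ctx F σ w q V H a s t ω, (ctx F σ w₁ q V₁ H a₁ s₁ t₁ ω, gt F a' s' t' ω))) ≤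
       2 * Real.log (2 * K + 1) := by
     refine Plk.CH_vec_const hQ _ _ (c := K) ?_
     intro ω ω' hω hω' h i
     obtain ⟨h1, h2⟩ := Prod.ext_iff.mp h
     obtain ⟨h3, h4⟩ := Prod.ext_iff.mp h2
     simp only at h1 h3 h4
     obtain ⟨g0, g1, g2, g3⟩ := gt_ext h4
     obtain ⟨f1, f2, f3⟩ := ctx_frm hσ h1
     obtain ⟨m1, m2⟩ := vel_near hF₁ hσ (hA ω hω) h3 h4
     obtain ⟨-, d2, -⟩ := frg_near' hF hF₁ hD (by omega : V ≤ V₁) (hA ω hω)
     rw [← hc] at m1 m2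
     rw [← hD'] at d2
     obtain ⟨r1, r2⟩ := vel_shift (t' := t') hV (by linarith only [hc0]) d2 m1 m2
     obtain ⟨b1, b2⟩ := btr_near (σ := σ) (q := q) (X := X) hF (hA ω hω)
     obtain ⟨b1', b2'⟩ := btr_near (σ := σ) (q := q) (X := X) hF (hA ω' hω')
     have kv : vc2 F σ q V H a s t a' s' t' ω = vc2 F σ q V H a s t a' s' t' ω' :=
       vc2_det h1 (Prod.ext (by simp only [T2, f1, f2, f3]) h4)
     rw [← hc] at b1 b2 b1' b2'
     rw [← g1, ← kv] at b1'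
     rw [← f2, ← g1, ← g2, ← g3, ← kv] at b2'
     have b1 := scale_le b1
     have b2 := scale_le b2
     have b1' := scale_le b1'
     have b2' := scale_le b2'
     have r1 := scale_le r1
     have r2 := scale_le r2
     refine dg_near (c := K - 1) ?_ |>.trans (by linarith only)
     rw [mul_sub] at b1 b2 b1' b2'
     rw [hK]
     fin_cases i
     · show |2 ^ X * Pool.OCV.btr (om F σ q V H X a s t 0)
         (fun ω i => om F σ q V H X a s t (Fin.succ i) ω) (S2 V H a s t a' s' t') ω 0 -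
         2 ^ X * Pool.OCV.btr (om F σ q V H X a s t 0)
         (fun ω i => om F σ q V H X a s t (Fin.succ i) ω) (S2 V H a s t a' s' t') ω' 0| ≤ _
       rw [abs_le] at b1 b1' r1 ⊢
       constructor <;> linarith only [hpos, b1, b1', r1, b1.1, b1.2, b1'.1, b1'.2, r1.1, r1.2]
     · show |2 ^ X * Pool.OCV.btr (om F σ q V H X a s t 0)
         (fun ω i => om F σ q V H X a s t (Fin.succ i) ω) (S2 V H a s t a' s' t') ω 1 -
         2 ^ X * Pool.OCV.btr (om F σ q V H X a s t 0)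
         (fun ω i => om F σ q V H X a s t (Fin.succ i) ω) (S2 V H a s t a' s' t') ω' 1| ≤ _
       rw [abs_le] at b2 b2' r2 ⊢
       constructor <;> linarith only [b2, b2', r2, b2.1, b2.2, b2'.1, b2'.2, r2.1, r2.2]
   exact by
    have k3 := CH_subadd h0
      (Uni.dg X (Pool.OCV.ytr (yy F σ w q V H X a s t 0) (om F σ q V H X a s t 0) (F.wt w)))
      (Pool.OCV.dgv X (Pool.OCV.btr (om F σ q V H X a s t 0)
          (fun ω i => om F σ q V H X a s t (Fin.succ i) ω) (S2 V H a s t a' s' t')))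
      (fun ω => (ctx F σ w q V H a s t ω, (ctx F σ w₁ q V₁ H a₁ s₁ t₁ ω, gt F a' s' t' ω)))
    have k4 : CH (Pool.Agent.H49.Ent.cond F.p A True) (yb2 F σ w q V H X a s t a' s' t')
        (fun ω => (ctx F σ w q V H a s t ω, (ctx F σ w₁ q V₁ H a₁ s₁ t₁ ω, gt F a' s' t' ω))) =
        CH (Pool.Agent.H49.Ent.cond F.p A True) (fun ω =>
          (Uni.dg X (Pool.OCV.ytr (yy F σ w q V H X a s t 0) (om F σ q V H X a s t 0)
            (F.wt w)) ω, Pool.OCV.dgv X (Pool.OCV.btr (om F σ q V H X a s t 0)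
          (fun ω i => om F σ q V H X a s t (Fin.succ i) ω) (S2 V H a s t a' s' t')) ω))
        (fun ω => (ctx F σ w q V H a s t ω, (ctx F σ w₁ q V₁ H a₁ s₁ t₁ ω, gt F a' s' t' ω))) :=
      rfl
    rw [k4]
    linarith only [k1, k2, k3]

/-- **One step of the chain with a fixed velocity.** -/
theorem h3_step (hσ : Function.Injective σ) (hF : Frg F A w V H D a s t a' s' t')
    {w₁ V₁ : ℕ} {a₁ s₁ t₁ : F.Ω → ℝ} (hF₁ : Frg F A w₁ V₁ H D a₁ s₁ t₁ a' s' t')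
    (hD : 0 ≤ D) (hQ : IsLaw (Pool.Agent.H49.Ent.cond F.p A True)) (hw : w ≤ J) (hw₁ : w₁ ≤ J)
    (hwX : w + X ≤ w₁) (hV : V + X ≤ V₁) :
    CH (Pool.Agent.H49.Ent.cond F.p A True)
        (fun ω => (yb2 F σ w q V H X a s t a' s' t' ω, ctx F σ w q V H a s t ω))
        (fun ω => (ctx F σ w₁ q V₁ H a₁ s₁ t₁ ω, gt F a' s' t' ω)) ≤
      3 * Real.log (2 * (3 * (1 + (D + D * D)) +
        2 * (2 * D + 2 * D ^ 2 + 1) ^ 2 * (1 + (D + D * D)) + 6) + 1) +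
      (3 * Real.log (2 * D + 1) +
        2 * (3 * Real.log (4 * 3 * (2 * (2 * D + 2 * D ^ 2 + 1) ^ 2) + 3))) := by
  have h0 := hQ.nonneg
  have k1 := ctx_down (q := q) (σ := σ) hF hF₁ hD hQ hw₁ (by omega) (by omega)
  have k2 := yb2_down (q := q) hσ hF hF₁ hD hQ hw hw₁ hwX hV
  have k3 := CH_le_add h0
    (fun ω => (yb2 F σ w q V H X a s t a' s' t' ω, ctx F σ w q V H a s t ω))
    (ctx F σ w q V H a s t)
    (fun ω => (ctx F σ w₁ q V₁ H a₁ s₁ t₁ ω, gt F a' s' t' ω))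
  have k4 : CH (Pool.Agent.H49.Ent.cond F.p A True)
      (fun ω => (yb2 F σ w q V H X a s t a' s' t' ω, ctx F σ w q V H a s t ω))
      (fun ω => (ctx F σ w q V H a s t ω, (ctx F σ w₁ q V₁ H a₁ s₁ t₁ ω, gt F a' s' t' ω))) ≤
      CH (Pool.Agent.H49.Ent.cond F.p A True) (yb2 F σ w q V H X a s t a' s' t')
      (fun ω => (ctx F σ w q V H a s t ω, (ctx F σ w₁ q V₁ H a₁ s₁ t₁ ω, gt F a' s' t' ω))) := by
    refine CH_mono_left h0 fun ω ω' _ _ h => ?_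
    simp only [Prod.mk.injEq] at h ⊢
    tauto
  linarith only [k1, k2, k3, k4]

/-- The digits of the velocity do not depend on the window. -/
theorem dg_om0 {w₁ V₁ : ℕ} {a₁ s₁ t₁ : F.Ω → ℝ} (ω : F.Ω) :
    Uni.dg X (om F σ q V H X a s t 0) ω = Uni.dg X (om F σ q V₁ H X a₁ s₁ t₁ 0) ω := by
  rw [dg_om (w := 0), dg_om (w := 0)]
  show ⌊(2 : ℝ) ^ X * F.md (cv q V H) (fr σ a s t) ω 0⌋ =
    ⌊(2 : ℝ) ^ X * F.md (cv q V₁ H) (fr σ a₁ s₁ t₁) ω 0⌋
  unfold Fam.md fr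
  rw [Box.mco_tfr0, Box.mco_tfr0, cv0, cv0]

theorem CH_dg_unit {q : F.Ω → ℝ} (hq : IsLaw q) {β : Type} (X : ℕ) (x : F.Ω → ℝ) (W : F.Ω → β)
    (h : ∀ ω, 0 < q ω → 0 ≤ x ω ∧ x ω < 1) : CH q (Uni.dg X x) W ≤ X * Real.log 2 := by
  refine (CH_le_card hq.nonneg hq.sum_one (Uni.dg X x) W
    (fun _ => Finset.Ico 0 (2 ^ X : ℤ)) ?_).trans ?_
  · intro ω hω
    obtain ⟨h0, h1⟩ := h ω hω
    rw [Finset.mem_Ico]
    constructor
    · exact Int.floor_nonneg.2 (by positivity)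
    · rw [Uni.dg, Int.floor_lt]
      push_cast
      have : (0 : ℝ) < 2 ^ X := by positivity
      nlinarith only [h1, this]
  · refine le_of_eq ?_
    have : ((Finset.Ico 0 (2 ^ X : ℤ)).card : ℝ) = 2 ^ X := by
      have e : (2 : ℤ) ^ X = ((2 ^ X : ℕ) : ℤ) := by push_cast; rfl
      rw [Int.card_Ico, sub_zero, e, Int.toNat_natCast]
      push_cast
      rfl
    simp only [this]
    rw [Ex_const hq.sum_one, Real.log_pow]

end fam3

end Pool.S6H
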