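import Pool.Agent.H6.S6H.Dat

/-!
# Exact formulas for the positions and the velocities modulo the direction of the fan
-/

set_option autoImplicit false

namespace Pool.S6H

open Finset Real
open Pool.Agent.H49.Ent Pool.Agent.H32.Dense Pool.STK Pool.KA Pool.KSAT Pool.K2S Pool.S6N

variable {J : ℕ}

/-- The second coordinate modulo the direction of the fan. -/
def Eu (σ : Fin 3 → Fin 3) (a' : ℝ) (x : Fin 3 → ℝ) : ℝ := x (σ 1) - a' * x (σ 0)

/-- The third coordinate modulo the direction of the fan. -/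
def EN (σ : Fin 3 → Fin 3) (a' s' t' : ℝ) (x : Fin 3 → ℝ) : ℝ :=
  x (σ 2) - (s' * a' + t') * x (σ 0)

section lemmas

variable {F : Fam 3 J} {A : F.Ω → Prop} {σ : Fin 3 → Fin 3} {w q V H X : ℕ} {D : ℝ}
  {a s t a' s' t' : F.Ω → ℝ}

theorem pow_split (q V w : ℕ) : (2 : ℝ) ^ (q + V + w) = 2 ^ V * 2 ^ (q + w) := by
  rw [← pow_add]
  congr 1
  omega

theorem S2_1_eq (V H : ℕ) (a s t a' s' t' : F.Ω → ℝ) (ω : F.Ω) :
    S2 V H a s t a' s' t' ω 1 = 2 ^ (V + H) * ((s' ω - s ω) * a' ω + (t' ω - t ω)) := by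
  rw [S2_1]
  unfold SS EE
  simp only [Matrix.cons_val_zero, Matrix.cons_val_one]
  rw [pow_add]
  ring

/-- General formula: `X i` are the coordinates in units of the box. -/
theorem lin_form (k : ℕ) (x : Fin 3 → ℝ) (a s t a' s' t' : F.Ω → ℝ) (ω : F.Ω) (X : Fin 3 → ℝ)
    (h : ∀ i, (2 : ℝ) ^ (cv q V H i + k) * mco (fr σ a s t ω) x i = X i) :
    2 ^ (q + k) * x (σ 0) = X 0 ∧
    2 ^ (q + V + k) * Eu σ (a' ω) x = X 1 - S2 V H a s t a' s' t' ω 0 * X 0 ∧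
    2 ^ (q + (V + H) + k) * (EN σ (a' ω) (s' ω) (t' ω) x - s ω * Eu σ (a' ω) x) =
      X 2 - S2 V H a s t a' s' t' ω 1 * X 0 := by
  have h0 := h 0
  have h1 := h 1
  have h2 := h 2
  unfold fr at h0 h1 h2
  rw [Box.mco_tfr0, cv0] at h0
  rw [Box.mco_tfr1, cv1] at h1
  rw [Box.mco_tfr2, cv2] at h2
  refine ⟨h0, ?_, ?_⟩
  · rw [← h0, ← h1, S2_0]
    unfold Eu EE
    have e : (2 : ℝ) ^ (q + V + k) = 2 ^ V * 2 ^ (q + k) := pow_split q V k
    rw [e]
    ring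
  · rw [← h0, ← h2, S2_1_eq]
    unfold EN Eu
    have e : (2 : ℝ) ^ (q + (V + H) + k) = 2 ^ (V + H) * 2 ^ (q + k) := pow_split q (V + H) k
    rw [e]
    ring

/-- The positions. -/
theorem pos_form (hw : w ≤ J) (q V H : ℕ) (a s t a' s' t' : F.Ω → ℝ) (ω : F.Ω) :
    2 ^ (q + w) * F.x ω (σ 0) = F.mx w (cv q V H) (fr σ a s t) ω 0 +
      F.mkn w (cv q V H) (fr σ a s t) ω 0 ∧
    2 ^ (q + V + w) * Eu σ (a' ω) (F.x ω) = F.mx w (cv q V H) (fr σ a s t) ω 1 -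
      S2 V H a s t a' s' t' ω 0 * F.mx w (cv q V H) (fr σ a s t) ω 0 +
      kn2 F σ w q V H a s t a' s' t' ω 0 ∧
    2 ^ (q + (V + H) + w) * (EN σ (a' ω) (s' ω) (t' ω) (F.x ω) - s ω * Eu σ (a' ω) (F.x ω)) =
      F.mx w (cv q V H) (fr σ a s t) ω 2 -
      S2 V H a s t a' s' t' ω 1 * F.mx w (cv q V H) (fr σ a s t) ω 0 +
      kn2 F σ w q V H a s t a' s' t' ω 1 := by
  obtain ⟨h0, h1, h2⟩ := lin_form (q := q) (V := V) (H := H) (σ := σ) w (F.x ω) a s t a' s' t' ω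
    (fun i => F.mx w (cv q V H) (fr σ a s t) ω i + F.mkn w (cv q V H) (fr σ a s t) ω i)
    (fun i => Box.pos_eq F hw (cv q V H) (fr σ a s t) ω i)
  refine ⟨h0, ?_, ?_⟩
  · rw [h1]
    unfold kn2
    have e : (0 : Fin 2).succ = (1 : Fin 3) := rfl
    rw [e]
    ring
  · rw [h2]
    unfold kn2
    have e : (1 : Fin 2).succ = (2 : Fin 3) := rfl
    rw [e]
    ring

/-- The velocities. -/
theorem vel_form (q V H : ℕ) (a s t a' s' t' : F.Ω → ℝ) (ω : F.Ω) :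
    2 ^ q * F.d ω (σ 0) = F.md (cv q V H) (fr σ a s t) ω 0 +
      F.mvl (cv q V H) (fr σ a s t) ω 0 ∧
    2 ^ (q + V) * Eu σ (a' ω) (F.d ω) = F.md (cv q V H) (fr σ a s t) ω 1 -
      S2 V H a s t a' s' t' ω 0 * F.md (cv q V H) (fr σ a s t) ω 0 +
      vc2 F σ q V H a s t a' s' t' ω 0 ∧
    2 ^ (q + (V + H)) * (EN σ (a' ω) (s' ω) (t' ω) (F.d ω) - s ω * Eu σ (a' ω) (F.d ω)) =
      F.md (cv q V H) (fr σ a s t) ω 2 -
      S2 V H a s t a' s' t' ω 1 * F.md (cv q V H) (fr σ a s t) ω 0 +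
      vc2 F σ q V H a s t a' s' t' ω 1 := by
  obtain ⟨h0, h1, h2⟩ := lin_form (q := q) (V := V) (H := H) (σ := σ) 0 (F.d ω) a s t a' s' t' ω
    (fun i => F.md (cv q V H) (fr σ a s t) ω i + F.mvl (cv q V H) (fr σ a s t) ω i)
    (fun i => by
      have := Box.mvl_add F (cv q V H) (fr σ a s t) ω i
      rw [add_zero, this, add_comm])
  simp only [add_zero] at h0 h1 h2
  refine ⟨h0, ?_, ?_⟩
  · rw [h1]
    unfold vc2
    have e : (0 : Fin 2).succ = (1 : Fin 3) := rfl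
    rw [e]
    ring
  · rw [h2]
    unfold vc2
    have e : (1 : Fin 2).succ = (2 : Fin 3) := rfl
    rw [e]
    ring

theorem mx_mem (ω : F.Ω) (i : Fin 3) : 0 ≤ F.mx w (cv q V H) (fr σ a s t) ω i ∧
    F.mx w (cv q V H) (fr σ a s t) ω i ≤ 2 := by
  have h1 := Box.mu_mem F w (fun i => cv q V H i + w) (fr σ a s t) ω i
  have h2 := Box.md_mem F (cv q V H) (fr σ a s t) ω i
  have h3 := Lab.wt_mem F w ω
  unfold Fam.mx
  constructor
  · have := mul_nonneg h3.1 h2.1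
    linarith [h1.1]
  · have : F.wt w ω * F.md (cv q V H) (fr σ a s t) ω i ≤ 1 * 1 :=
      mul_le_mul h3.2.le h2.2.le h2.1 zero_le_one
    linarith [h1.2]

/-- The rounded position. -/
theorem mx_yy (ω : F.Ω) (i : Fin 3) : |F.mx w (cv q V H) (fr σ a s t) ω i -
    (yy F σ w q V H X a s t i ω + F.wt w ω * om F σ q V H X a s t i ω)| ≤ 2 / 2 ^ X := by
  have hwt := Lab.wt_mem F w ω
  have k1 := floor_div_near (F.mu w (fun i => cv q V H i + w) (fr σ a s t) ω i) X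
  have k2 := floor_div_near (F.md (cv q V H) (fr σ a s t) ω i) X
  have e1 : F.mx w (cv q V H) (fr σ a s t) ω i -
    (yy F σ w q V H X a s t i ω + F.wt w ω * om F σ q V H X a s t i ω) =
    -(yy F σ w q V H X a s t i ω - F.mu w (fun i => cv q V H i + w) (fr σ a s t) ω i) -
      F.wt w ω * (om F σ q V H X a s t i ω - F.md (cv q V H) (fr σ a s t) ω i) := by
    unfold Fam.mx
    ring
  rw [e1]
  refine (abs_sub _ _).trans ?_
  rw [abs_neg, abs_mul, abs_of_nonneg hwt.1]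
  have k3 : F.wt w ω * |om F σ q V H X a s t i ω - F.md (cv q V H) (fr σ a s t) ω i| ≤
      1 * (1 / 2 ^ X) := mul_le_mul hwt.2.le k2 (abs_nonneg _) zero_le_one
  have e2 : (2 : ℝ) / 2 ^ X = 1 / 2 ^ X + 1 * (1 / 2 ^ X) := by ring
  rw [e2]
  exact add_le_add k1 k3

theorem md_om (ω : F.Ω) (i : Fin 3) : |F.md (cv q V H) (fr σ a s t) ω i -
    om F σ q V H X a s t i ω| ≤ 1 / 2 ^ X := by
  rw [abs_sub_comm]
  exact floor_div_near (F.md (cv q V H) (fr σ a s t) ω i) X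

/-- The normal positions are the exact positions, up to rounding. -/
theorem nu2_near (hF : Frg F A w V H D a s t a' s' t') (hD : 0 ≤ D) (hw : w ≤ J) {ω : F.Ω}
    (hω : A ω) :
    |nu2 F σ w q V H X a s t a' s' t' ω 0 - 2 ^ (q + V + w) * Eu σ (a' ω) (F.x ω)| ≤
      (2 + 2 * (D + D * D)) / 2 ^ X ∧
    |nu2 F σ w q V H X a s t a' s' t' ω 1 - 2 ^ (q + (V + H) + w) *
      (EN σ (a' ω) (s' ω) (t' ω) (F.x ω) - s ω * Eu σ (a' ω) (F.x ω))| ≤
      (2 + 2 * (D + D * D)) / 2 ^ X := by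
  obtain ⟨-, h1, h2⟩ := pos_form (σ := σ) hw q V H a s t a' s' t' ω
  have key : ∀ i : Fin 2, |nu2 F σ w q V H X a s t a' s' t' ω i -
      (F.mx w (cv q V H) (fr σ a s t) ω i.succ -
      S2 V H a s t a' s' t' ω i * F.mx w (cv q V H) (fr σ a s t) ω 0 +
      kn2 F σ w q V H a s t a' s' t' ω i)| ≤ (2 + 2 * (D + D * D)) / 2 ^ X := by
    intro i
    have e1 : nu2 F σ w q V H X a s t a' s' t' ω i -
      (F.mx w (cv q V H) (fr σ a s t) ω i.succ -
      S2 V H a s t a' s' t' ω i * F.mx w (cv q V H) (fr σ a s t) ω 0 +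
      kn2 F σ w q V H a s t a' s' t' ω i) =
      -(F.mx w (cv q V H) (fr σ a s t) ω i.succ - (yy F σ w q V H X a s t i.succ ω +
        F.wt w ω * om F σ q V H X a s t i.succ ω)) +
      S2 V H a s t a' s' t' ω i * (F.mx w (cv q V H) (fr σ a s t) ω 0 -
        (yy F σ w q V H X a s t 0 ω + F.wt w ω * om F σ q V H X a s t 0 ω)) := by
      unfold nu2
      ring
    rw [e1]
    refine (abs_add_le _ _).trans ?_
    rw [abs_neg, abs_mul]
    have k1 := mx_yy (w := w) (q := q) (V := V) (H := H) (X := X) (σ := σ) (a := a) (s := s)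
      (t := t) ω i.succ
    have k2 := mx_yy (w := w) (q := q) (V := V) (H := H) (X := X) (σ := σ) (a := a) (s := s)
      (t := t) ω 0
    have k3 := S2_le hF hω i
    have k4 : |S2 V H a s t a' s' t' ω i| * |F.mx w (cv q V H) (fr σ a s t) ω 0 -
        (yy F σ w q V H X a s t 0 ω + F.wt w ω * om F σ q V H X a s t 0 ω)| ≤
        (D + D * D) * (2 / 2 ^ X) := mul_le_mul k3 k2 (abs_nonneg _) (by positivity)
    have e2 : (2 + 2 * (D + D * D)) / (2 : ℝ) ^ X = 2 / 2 ^ X + (D + D * D) * (2 / 2 ^ X) := by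
      ring
    rw [e2]
    exact add_le_add k1 k4
  refine ⟨?_, ?_⟩
  · rw [h1]
    exact key 0
  · rw [h2]
    exact key 1

end lemmas

end Pool.S6H
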