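import Pool.Agent.H6.S6H.Asm
import Pool.Agent.H99.S6H.Cls0
import Pool.Agent.H1.S6H.Str
import Pool.Agent.H90.S6R.HRowD
import Pool.Agent.H84.DPC.Split
import Pool.Agent.H14.S6H.HAct
import Pool.Agent.H50.S6H.RowE

/-!
# The plateau of `R - varpi`: the half (alpha), and the set form
-/

set_option autoImplicit false

namespace Pool.S6C

open Finset Real
open Pool.Agent.H49.Ent Pool.Agent.H32.Dense Pool.STK Pool.KA Pool.KSAT Pool.K2S Pool.PB Pool.KS6
  Pool.Sel51 Pool.FALL Pool.S6H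

/-- The conversion of the rows. -/
theorem hcnv : HCnvStmt := by
  refine ⟨CD 4, ?_⟩
  intro J F A σ N X Δ r w₀ V₀ H c₁ c κ ϖ a t s a' t' _ hl htop hF hϖ hc i hi q hbox j hj E hE
  have hlE := isLaw_event hl hϖ hE
  have hA : ∀ ω, 0 < Pool.Agent.H49.Ent.cond (Pool.Agent.H49.Ent.cond F.p A True) E True ω →
      A ω := fun ω hω =>
    of_eq_true ((cond_pos_iff F.isLaw.nonneg A True ω).1 (of_event_pos hl hω)).2
  have hw : fw w₀ Δ i ≤ J := by
    unfold fw
    have := Nat.mul_le_mul_right Δ hi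
    omega
  have hj0 : j * ⌊κ * X⌋₊ ≤ X := by
    have : j * ⌊κ * X⌋₊ ≤ (j + 1) * ⌊κ * X⌋₊ := Nat.mul_le_mul_right _ (Nat.le_succ j)
    omega
  have k1 := CH_nu2_le (σ := σ) (q := q) hlE hA (hF i hi) (by norm_num) hw hj0 hj
  have k2 := hbox j hj E hE
  unfold CD at hc
  linarith

/-- (alpha) from the activity and the rows. -/
theorem halpha_rows (hAc : HActStmt) (hR : HRowStmt) : HAlphaStmt :=
  halpha_of Pool.S6HF.hfr_thm hAc hR str_hfr hcnv

/-- (alpha) from the fullness of the natural boxes. -/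
theorem halpha_nat (hN : NATStmt) : HAlphaStmt := halpha_rows hact_thm (Pool.HPR.hrow_of hN)

/-- (alpha) in the form of the split. -/
theorem hpla_alpha (h : HAlphaStmt) : RcAlpha fun v ρ => v = ρ ∧ 0 < v := by
  intro S a R h₁ i₀ c s₂ r D σ hC act K W v₁ t e₁ Q₀ P g v₀ v ρ a₀ α hL hΓ pe rc _ h1 h2 h3 h4
  obtain ⟨rfl, hv⟩ := hΓ
  exact h S a R h₁ i₀ c s₂ r D σ hC act K W v₁ t e₁ Q₀ P g v₀ v a₀ α hL hv pe rc h3 h1 h2 h4

/-- **(HPLA)** in the set form, from (alpha) and (beta). -/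
theorem hpla_of (h : HAlphaStmt) (hβ : RcBeta fun v ρ => v = ρ ∧ 0 < v) : HPLASet :=
  case_rc (hpla_alpha h) hβ

/-- **(HPLA)** in the set form, from the fullness of the natural boxes and (beta). -/
theorem hpla_nat (hN : NATStmt) (hβ : RcBeta fun v ρ => v = ρ ∧ 0 < v) : HPLASet :=
  hpla_of (halpha_nat hN) hβ

end Pool.S6C
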