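import Pool.Agent.H6.S6H.Ocv
import Pool.Agent.H21.FALL.Thm
import Pool.Agent.H98.OCV.Thm

/-!
# The plateau of `R - varpi`: one family
-/

set_option autoImplicit false

namespace Pool.S6H

open Finset Real
open Pool.Agent.H49.Ent Pool.Agent.H32.Dense Pool.STK Pool.KA Pool.KSAT Pool.K2S
  Pool.S6N
open Pool.FALL (cx bx fw fv fq fq_succ fq_prev fq_diag fw_succ fv_succ fw_le sum1 grid_rect
  frg_mono)

/-- The pair of the normal positions at the place `(i, k)`. -/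
noncomputable def nx2 {J : ℕ} (F : Fam 3 J) (σ : Fin 3 → Fin 3) (N X Δ r w₀ V₀ H q₀ : ℕ)
    (a t : ℕ → F.Ω → ℝ) (s a' t' : F.Ω → ℝ) (i k : ℕ) :=
  nu2 F σ (fw w₀ Δ i) (fq q₀ Δ r N i k) (fv V₀ r i) H X (a i) s (t i) a' s t'

section

variable {J : ℕ} {F : Fam 3 J} {A : F.Ω → Prop} {σ : Fin 3 → Fin 3}
  {N X Δ r w₀ V₀ H q₀ : ℕ} {a t : ℕ → F.Ω → ℝ} {s a' t' : F.Ω → ℝ}

/-- Digits of a vector near a known vector. -/
theorem CH_dgv_bd {p : F.Ω → ℝ} (hp : IsLaw p) {T : Type} {c : ℕ} (x k : F.Ω → Fin c → ℝ)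
    (W : F.Ω → T) {K : ℝ} (hK : 1 ≤ K) (hk : Det p W k)
    (hx : ∀ ω, 0 < p ω → ∀ i, |x ω i - k ω i| ≤ K) :
    CH p (Pool.OCV.dgv X x) W ≤ c * (X * Real.log 2 + Real.log (6 * K + 1)) := by
  have h2 : (1 : ℝ) ≤ 2 ^ X := one_le_pow₀ (by norm_num)
  refine (Plk.CH_vec_const hp _ _ (c := 2 ^ X * (3 * K)) ?_).trans ?_
  · intro ω ω' hω hω' h i
    have e := congrFun (hk ω ω' hω hω' h) i
    have h1 := abs_le.1 (hx ω hω i)
    have h3 := abs_le.1 (hx ω' hω' i)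
    have f1 := Int.floor_le ((2 : ℝ) ^ X * x ω i)
    have f2 := Int.lt_floor_add_one ((2 : ℝ) ^ X * x ω i)
    have f3 := Int.floor_le ((2 : ℝ) ^ X * x ω' i)
    have f4 := Int.lt_floor_add_one ((2 : ℝ) ^ X * x ω' i)
    show |((⌊(2 : ℝ) ^ X * x ω i⌋ - ⌊(2 : ℝ) ^ X * x ω' i⌋ : ℤ) : ℝ)| ≤ _
    push_cast
    have g1 : x ω i - x ω' i ≤ 2 * K := by
      rw [← e] at h3
      linarith only [h1, h3, h1.1, h1.2, h3.1, h3.2]
    have g2 : -(2 * K) ≤ x ω i - x ω' i := by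
      rw [← e] at h3
      linarith only [h1, h3, h1.1, h1.2, h3.1, h3.2]
    have g3 : (2 : ℝ) ^ X * (x ω i - x ω' i) ≤ 2 ^ X * (2 * K) :=
      mul_le_mul_of_nonneg_left g1 (by positivity)
    have g4 : (2 : ℝ) ^ X * (-(2 * K)) ≤ 2 ^ X * (x ω i - x ω' i) :=
      mul_le_mul_of_nonneg_left g2 (by positivity)
    have g5 : (1 : ℝ) ≤ 2 ^ X * K := by nlinarith only [hK, h2]
    rw [abs_le]
    constructor <;> linarith
  · refine mul_le_mul_of_nonneg_left ?_ (Nat.cast_nonneg c)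
    rw [← Real.log_pow, ← Real.log_mul (by positivity) (by positivity)]
    refine Real.log_le_log (by positivity) ?_
    nlinarith only [h2]

theorem nu2_bd {w q V : ℕ} {a s t a' s' t' : F.Ω → ℝ}
    (hF : Frg F A w V H 4 a s t a' s' t') {ω : F.Ω} (hω : A ω)
    (i : Fin 2) : |nu2 F σ w q V H X a s t a' s' t' ω i -
      kn2 F σ w q V H a s t a' s' t' ω i| ≤ 42 := by
  obtain ⟨y0, y0'⟩ := yy_mem (F := F) (σ := σ) (w := w) (q := q) (V := V) (H := H) (X := X)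
    (a := a) (s := s) (t := t) 0 ω
  obtain ⟨y2, y2'⟩ := yy_mem (F := F) (σ := σ) (w := w) (q := q) (V := V) (H := H) (X := X)
    (a := a) (s := s) (t := t) i.succ ω
  obtain ⟨o0, o0'⟩ := om_mem (F := F) (σ := σ) (q := q) (V := V) (H := H) (X := X)
    (a := a) (s := s) (t := t) 0 ω
  obtain ⟨o2, o2'⟩ := om_mem (F := F) (σ := σ) (q := q) (V := V) (H := H) (X := X)
    (a := a) (s := s) (t := t) i.succ ω
  obtain ⟨t0, t1⟩ := Lab.wt_mem F w ω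
  have hS := S2_le hF hω i
  have e1 : 0 ≤ F.wt w ω * om F σ q V H X a s t 0 ω := mul_nonneg t0 o0
  have e2 : F.wt w ω * om F σ q V H X a s t 0 ω ≤ 1 := mul_le_one₀ t1.le o0 o0'.le
  have e3 : 0 ≤ F.wt w ω * om F σ q V H X a s t i.succ ω := mul_nonneg t0 o2
  have e4 : F.wt w ω * om F σ q V H X a s t i.succ ω ≤ 1 := mul_le_one₀ t1.le o2 o2'.le
  have e5 : |S2 V H a s t a' s' t' ω i * (yy F σ w q V H X a s t 0 ω +
      F.wt w ω * om F σ q V H X a s t 0 ω)| ≤ (4 + 4 * 4) * 2 := by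
    rw [abs_mul]
    refine mul_le_mul hS ?_ (abs_nonneg _) (by norm_num)
    rw [abs_of_nonneg (by linarith only [y0, e1])]
    linarith
  have e6 := abs_le.1 e5
  unfold nu2
  rw [abs_le]
  constructor <;> linarith [e6.1, e6.2]

/-- The constant of the steps with a fixed row. -/
noncomputable def CA : ℝ := 3 * Real.log (2 * 4 + 1) +
  2 * (3 * Real.log (4 * 3 * (2 * 4 + 2 * 4 ^ 2 + 1) + 3))

/-- The constant of the rows. -/
noncomputable def CB : ℝ := 2 * Real.log (2 * ((4 * (2 + 2 * (4 + 4 * 4)) + 1) +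
  (2 * 4 + 2 * 4 ^ 2 + 1) * (2 * (2 + 2 * (4 + 4 * 4)) + 1) + 1) + 1)

/-- The constant of the steps with a fixed velocity. -/
noncomputable def CC : ℝ := 3 * Real.log (2 * (3 * (1 + (4 + 4 * 4)) +
  2 * (2 * 4 + 2 * 4 ^ 2 + 1) ^ 2 * (1 + (4 + 4 * 4)) + 6) + 1) +
  (3 * Real.log (2 * 4 + 1) + 2 * (3 * Real.log (4 * 3 * (2 * (2 * 4 + 2 * 4 ^ 2 + 1) ^ 2) + 3)))

/-- **(H2)**, the sum over the windows. -/
theorem sum2 (hσ : Function.Injective σ) (hQ : IsLaw (Pool.Agent.H49.Ent.cond F.p A True))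
    (hX : X ≤ Δ) (hr : X ≤ r) (hF : ∀ i ≤ N, Frg F A (fw w₀ Δ i) (fv V₀ r i) H 4 (a i) s (t i) a'
      s t') (hJ : w₀ + N * Δ ≤ J) {N' : ℕ} (hN' : N' ≤ N) (k : ℕ) {C : ℝ}
    (hC1 : CA ≤ C) (hC2 : CB ≤ C) :
    ∑ i ∈ range N', (CH (Pool.Agent.H49.Ent.cond F.p A True)
        (Pool.OCV.dgv X (nx2 F σ N X Δ r w₀ V₀ H q₀ a t s a' t' (1 + i) k))
        (fun ω => (cx F σ N Δ r w₀ V₀ H q₀ a t s (1 + i) k ω, gt F a' s t' ω)) -
      CH (Pool.Agent.H49.Ent.cond F.p A True)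
        (Pool.OCV.dgv X (nx2 F σ N X Δ r w₀ V₀ H q₀ a t s a' t' (1 + i) k))
        (fun ω => (vb2 F σ (fw w₀ Δ (1 + i)) (fq q₀ Δ r N (1 + i) k) (fv V₀ r (1 + i)) H X
          (a (1 + i)) s (t (1 + i)) ω,
          (cx F σ N Δ r w₀ V₀ H q₀ a t s (1 + i) k ω, gt F a' s t' ω)))) ≤
      2 * (X * Real.log 2 + Real.log (6 * 42 + 1)) + 2 * C * N' := by
  have h0 := hQ.nonneg
  have hA : ∀ ω, 0 < Pool.Agent.H49.Ent.cond F.p A True ω → A ω := fun ω hω =>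
    of_eq_true ((cond_pos_iff F.isLaw.nonneg A True ω).1 hω).2
  have h1 := tel_chain h0
    (fun j => Pool.OCV.dgv X (nx2 F σ N X Δ r w₀ V₀ H q₀ a t s a' t' (N' - j) k))
    (fun j => vb2 F σ (fw w₀ Δ (N' - j)) (fq q₀ Δ r N (N' - j) k) (fv V₀ r (N' - j)) H X
          (a (N' - j)) s (t (N' - j)))
    (fun j => cx F σ N Δ r w₀ V₀ H q₀ a t s (N' - j) k) (gt F a' s t') (N := N') (C := C)
    (fun j hj => by
      obtain ⟨i, hi⟩ : ∃ i, N' - j = i + 1 := ⟨N' - j - 1, by omega⟩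
      have hi' : N' - (j + 1) = i := by omega
      rw [hi, hi']
      refine (h2_step2 (F := F) (σ := σ) (X := X) (hF (i + 1) (by omega)) (hF i (by omega))
        (by norm_num) hQ ((fw_le (by omega)).trans hJ) ?_ ?_ ?_).trans hC1
      · rw [fw_succ]
        omega
      · rw [fv_succ]
        omega
      · rw [fq_prev q₀ Δ r k (by omega : i + 1 ≤ N), fw_succ, fv_succ]
        omega)
    (fun j hj => by
      obtain ⟨i, hi⟩ : ∃ i, N' - j = i + 1 := ⟨N' - j - 1, by omega⟩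
      have hi' : N' - (j + 1) = i := by omega
      rw [hi, hi']
      refine (h2_row2 (F := F) (σ := σ) (X := X) hσ (hF (i + 1) (by omega)) (hF i (by omega))
        (by norm_num) hQ ((fw_le (by omega)).trans hJ) ((fw_le (by omega)).trans hJ) ?_ ?_).trans
          hC2
      · rw [fv_succ]
        omega
      · rw [fq_prev q₀ Δ r k (by omega : i + 1 ≤ N), fw_succ, fv_succ]
        omega)
  have h2 : CH (Pool.Agent.H49.Ent.cond F.p A True)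
      (Pool.OCV.dgv X (nx2 F σ N X Δ r w₀ V₀ H q₀ a t s a' t' (N' - 0) k))
      (fun ω => (cx F σ N Δ r w₀ V₀ H q₀ a t s (N' - 0) k ω, gt F a' s t' ω)) ≤
      (2 : ℕ) * (X * Real.log 2 + Real.log (6 * 42 + 1)) :=
    CH_dgv_bd hQ _ (kn2 F σ (fw w₀ Δ (N' - 0)) (fq q₀ Δ r N (N' - 0) k) (fv V₀ r (N' - 0)) H
      (a (N' - 0)) s (t (N' - 0)) a' s t') _ (by norm_num)
      (fun ω ω' _ _ h => kn2_det (Prod.ext_iff.mp h).1
        (T2_of hσ (Prod.ext_iff.mp h).1 (Prod.ext_iff.mp h).2))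
      fun ω hω i => nu2_bd (hF (N' - 0) (by omega)) (hA ω hω) i
  have h3 := CH_nonneg h0
    (Pool.OCV.dgv X (nx2 F σ N X Δ r w₀ V₀ H q₀ a t s a' t' (N' - N') k))
    (fun ω => (cx F σ N Δ r w₀ V₀ H q₀ a t s (N' - N') k ω, gt F a' s t' ω))
  rw [← Finset.sum_range_reflect] at h1
  have h4 : ∀ i ∈ range N', N' - (N' - 1 - i) = 1 + i := by
    intro i hi
    have := Finset.mem_range.1 hi
    omega
  rw [Finset.sum_congr rfl fun i hi => by rw [h4 i hi]] at h1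
  push_cast at h2
  linarith only [h1, h2, h3]

/-- **(H3)**, the sum over the diagonals. -/
theorem sum3 (hσ : Function.Injective σ) (hQ : IsLaw (Pool.Agent.H49.Ent.cond F.p A True))
    (hX : X ≤ Δ) (hr : X ≤ r)
    (hF : ∀ i ≤ N, Frg F A (fw w₀ Δ i) (fv V₀ r i) H 4 (a i) s (t i) a'
      s t') (hJ : w₀ + N * Δ ≤ J) {N' : ℕ} (hN' : N' + 1 ≤ N) (d : ℕ) {C : ℝ}
    (hC0 : 0 ≤ C) (hC : CC ≤ C) :
    ∑ i ∈ range N', (CH (Pool.Agent.H49.Ent.cond F.p A True)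
        (Uni.dg X (om F σ (fq q₀ Δ r N (1 + i) (i + d)) (fv V₀ r (1 + i)) H X (a (1 + i)) s
          (t (1 + i)) 0))
        (fun ω => (cx F σ N Δ r w₀ V₀ H q₀ a t s (1 + i) (i + d) ω, gt F a' s t' ω)) -
      CH (Pool.Agent.H49.Ent.cond F.p A True)
        (Uni.dg X (om F σ (fq q₀ Δ r N (1 + i) (i + d)) (fv V₀ r (1 + i)) H X (a (1 + i)) s
          (t (1 + i)) 0))
        (fun ω => (yb2 F σ (fw w₀ Δ (1 + i)) (fq q₀ Δ r N (1 + i) (i + d))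
          (fv V₀ r (1 + i)) H X (a (1 + i)) s (t (1 + i)) a' s t' ω,
          (cx F σ N Δ r w₀ V₀ H q₀ a t s (1 + i) (i + d) ω, gt F a' s t' ω)))) ≤
      X * Real.log 2 + 2 * C * N' := by
  have h0 := hQ.nonneg
  obtain ⟨Q, hQd⟩ : ∃ Q, Q = q₀ + (d + (N - 1)) * (Δ + r) := ⟨_, rfl⟩
  have hQj : ∀ j, 1 + j ≤ N → fq q₀ Δ r N (1 + j) (j + d) = Q := fun j hj => by
    rw [hQd]
    exact fq_diag q₀ Δ r d hj
  obtain ⟨n, hn⟩ : ∃ n, n = Uni.dg X (om F σ Q 0 H X (a 0) s (t 0) 0) := ⟨_, rfl⟩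
  have hn' : ∀ j, Uni.dg X (om F σ Q (fv V₀ r (1 + j)) H X (a (1 + j)) s (t (1 + j)) 0) = n := by
    intro j
    rw [hn]
    funext ω
    exact dg_om0 (w₁ := 0) ω
  have h1 := tel_fix h0 n (fun j => yb2 F σ (fw w₀ Δ (1 + j)) Q
          (fv V₀ r (1 + j)) H X (a (1 + j)) s (t (1 + j)) a' s t')
    (fun j => ctx F σ (fw w₀ Δ (1 + j)) Q (fv V₀ r (1 + j)) H (a (1 + j)) s (t (1 + j)))
    (gt F a' s t') (N := N') (C := C) hC0 (fun j hj => by
      have e : 1 + (j + 1) = (1 + j) + 1 := by omega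
      simp only [e]
      refine (h3_step (F := F) (σ := σ) (q := Q) (X := X) hσ
        (hF (1 + j) (by omega)) (hF (1 + j + 1) (by omega)) (by norm_num) hQ
        ((fw_le (by omega)).trans hJ) ((fw_le (by omega)).trans hJ) ?_ ?_).trans hC
      · rw [fw_succ]
        omega
      · rw [fv_succ]
        omega)
  have h2 : CH (Pool.Agent.H49.Ent.cond F.p A True) n (fun ω => (ctx F σ (fw w₀ Δ (1 + 0)) Q
      (fv V₀ r (1 + 0)) H (a (1 + 0)) s (t (1 + 0)) ω, gt F a' s t' ω)) ≤ X * Real.log 2 := by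
    rw [hn]
    exact CH_dg_unit hQ X _ _ fun ω _ => om_mem 0 ω
  refine le_trans (le_of_eq ?_) (h1.trans (by linarith only [h2]))
  refine Finset.sum_congr rfl fun i hi => ?_
  have hi' := Finset.mem_range.1 hi
  unfold cx
  rw [hQj i (by omega), hn' i]

/-- The defect in (H1). -/
noncomputable def g1 {J : ℕ} (F : Fam 3 J) (A : F.Ω → Prop) (σ : Fin 3 → Fin 3)
    (N X Δ r w₀ V₀ H q₀ : ℕ) (a t : ℕ → F.Ω → ℝ) (s a' t' : F.Ω → ℝ) (i k : ℕ) : ℝ :=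
  CH (Pool.Agent.H49.Ent.cond F.p A True) (fun ω => (a' ω, s ω, t' ω))
      (fun ω => (cx F σ N Δ r w₀ V₀ H q₀ a t s i k ω, F.T ω)) -
    CH (Pool.Agent.H49.Ent.cond F.p A True) (fun ω => (a' ω, s ω, t' ω))
      (fun ω => (bx F σ N X Δ r w₀ V₀ H q₀ a t s i k ω,
        (cx F σ N Δ r w₀ V₀ H q₀ a t s i k ω, F.T ω)))

/-- The defect in (H2). -/
noncomputable def g2 {J : ℕ} (F : Fam 3 J) (A : F.Ω → Prop) (σ : Fin 3 → Fin 3)
    (N X Δ r w₀ V₀ H q₀ : ℕ) (a t : ℕ → F.Ω → ℝ) (s a' t' : F.Ω → ℝ) (i k : ℕ) : ℝ :=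
  CH (Pool.Agent.H49.Ent.cond F.p A True)
      (Pool.OCV.dgv X (nx2 F σ N X Δ r w₀ V₀ H q₀ a t s a' t' i k))
      (fun ω => (cx F σ N Δ r w₀ V₀ H q₀ a t s i k ω, gt F a' s t' ω)) -
    CH (Pool.Agent.H49.Ent.cond F.p A True)
      (Pool.OCV.dgv X (nx2 F σ N X Δ r w₀ V₀ H q₀ a t s a' t' i k))
      (fun ω => (vb2 F σ (fw w₀ Δ i) (fq q₀ Δ r N i k) (fv V₀ r i) H X (a i) s (t i) ω,
        (cx F σ N Δ r w₀ V₀ H q₀ a t s i k ω, gt F a' s t' ω)))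

/-- The defect in (H3). -/
noncomputable def g3 {J : ℕ} (F : Fam 3 J) (A : F.Ω → Prop) (σ : Fin 3 → Fin 3)
    (N X Δ r w₀ V₀ H q₀ : ℕ) (a t : ℕ → F.Ω → ℝ) (s a' t' : F.Ω → ℝ) (i k : ℕ) : ℝ :=
  CH (Pool.Agent.H49.Ent.cond F.p A True)
      (Uni.dg X (om F σ (fq q₀ Δ r N i k) (fv V₀ r i) H X (a i) s (t i) 0))
      (fun ω => (cx F σ N Δ r w₀ V₀ H q₀ a t s i k ω, gt F a' s t' ω)) -
    CH (Pool.Agent.H49.Ent.cond F.p A True)
      (Uni.dg X (om F σ (fq q₀ Δ r N i k) (fv V₀ r i) H X (a i) s (t i) 0))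
      (fun ω => (yb2 F σ (fw w₀ Δ i) (fq q₀ Δ r N i k)
        (fv V₀ r i) H X (a i) s (t i) a' s t' ω,
        (cx F σ N Δ r w₀ V₀ H q₀ a t s i k ω, gt F a' s t' ω)))

end

/-- **(HPLA, alpha)**, one family, from theorem OCV. -/
theorem hone_of (hOCV : Pool.OCV.OCVRStmt 2) : HOneStmt := by
  intro c ca hc hca
  obtain ⟨x₀, η, κ, ϖ, ι, ε, X₁, hx₀, hη, hη1, hκ, hκ1, hϖ, hι, hε, key⟩ :=
    hOCV (4 + 4 * 4) c ca (1 / 4) hc hca (by norm_num)
  obtain ⟨C, hC⟩ : ∃ C, C = CA + CB + CC := ⟨_, rfl⟩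
  have l1 : 0 ≤ CA := by
    unfold CA
    have := Real.log_nonneg (by norm_num : (1 : ℝ) ≤ 2 * 4 + 1)
    have := Real.log_nonneg (by norm_num : (1 : ℝ) ≤ 4 * 3 * (2 * 4 + 2 * 4 ^ 2 + 1) + 3)
    positivity
  have l2 : 0 ≤ CB := by
    unfold CB
    have := Real.log_nonneg (by norm_num : (1 : ℝ) ≤ 2 * ((4 * (2 + 2 * (4 + 4 * 4)) + 1) +
      (2 * 4 + 2 * 4 ^ 2 + 1) * (2 * (2 + 2 * (4 + 4 * 4)) + 1) + 1) + 1)
    positivity
  have l3 : 0 ≤ CC := by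
    unfold CC
    have := Real.log_nonneg (by norm_num : (1 : ℝ) ≤ 2 * (3 * (1 + (4 + 4 * 4)) +
      2 * (2 * 4 + 2 * 4 ^ 2 + 1) ^ 2 * (1 + (4 + 4 * 4)) + 6) + 1)
    have := Real.log_nonneg (by norm_num : (1 : ℝ) ≤ 2 * 4 + 1)
    have := Real.log_nonneg (by norm_num : (1 : ℝ) ≤
      4 * 3 * (2 * (2 * 4 + 2 * 4 ^ 2 + 1) ^ 2) + 3)
    positivity
  have hC1 : CA ≤ C := by linarith
  have hC2 : CB ≤ C := by linarith
  have hC3 : CC ≤ C := by linarith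
  have hC0 : 0 ≤ C := l1.trans hC1
  obtain ⟨N', hN'⟩ := exists_nat_ge (400 / ι + 1)
  have h200 : (0 : ℝ) < 400 / ι := by positivity
  have hN'1 : (1 : ℝ) ≤ N' := by linarith only [hN', h200]
  have hN'0 : 0 < N' := by
    have : (0 : ℝ) < N' := by linarith only [hN', h200]
    exact_mod_cast this
  refine ⟨x₀, η, κ, ϖ, ι / 16, ε / 2, N' + 1, hx₀, hη, hη1, hκ, hκ1, hϖ, by positivity,
    by positivity, fun β => ?_⟩
  obtain ⟨M₀, hM₀⟩ := exists_nat_ge (100 * β / ι)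
  obtain ⟨M₁, hM₁⟩ : ∃ M₁, M₁ = max N' M₀ := ⟨_, rfl⟩
  have hM₁N : N' ≤ M₁ := by rw [hM₁]; exact le_max_left _ _
  have hM₁0 : (0 : ℝ) < M₁ := by
    have : 0 < M₁ := by omega
    exact_mod_cast this
  have hM₁β : β ≤ ι / 100 * M₁ := by
    have h1 : (M₀ : ℝ) ≤ M₁ := by
      rw [hM₁]
      exact_mod_cast le_max_right _ _
    have h2 := hM₀.trans h1
    rw [div_le_iff₀ hι] at h2
    linarith only [h2]
  obtain ⟨X₂, hX₂⟩ := exists_nat_ge (100 * (4 * Real.log 253 + 6 * C + 1) / ι)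
  refine ⟨N' + M₁, max X₁ (max X₂ 1), ?_⟩
  intro J F A σ X Δ r w₀ V₀ H q₀ D e B a t s a' t' hX he hB h
  have hX1 : X₁ ≤ X := (le_max_left _ _).trans hX
  have hX2 : X₂ ≤ X := ((le_max_left _ _).trans (le_max_right _ _)).trans hX
  have hX3 : 1 ≤ X := ((le_max_right _ _).trans (le_max_right _ _)).trans hX
  have hXr : (1 : ℝ) ≤ X := by exact_mod_cast hX3
  have hXc : 100 * (4 * Real.log 253 + 6 * C + 1) ≤ ι * X := by
    have h1 : (X₂ : ℝ) ≤ X := by exact_mod_cast hX2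
    have h2 := hX₂.trans h1
    rw [div_le_iff₀ hι] at h2
    linarith only [h2]
  have hQ := h.law
  have h0 := hQ.nonneg
  have hF : ∀ i ≤ N' + 1, Frg F A (fw w₀ Δ i) (fv V₀ r i) H 4 (a i) s (t i) a' s t' :=
    fun i hi => frg_mono h.D4 (h.frg i hi)
  have htop : w₀ + (N' + 1) * Δ + X ≤ J := h.top
  have hJ : w₀ + (N' + 1) * Δ ≤ J := by omega
  have hl2 : Real.log 2 < 0.7 := by
    have := Real.log_two_lt_d9
    linarith only [this]
  have hl2' : 0.6 < Real.log 2 := by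
    have := Real.log_two_gt_d9
    linarith only [hl2, this]
  have h253 : 0 ≤ Real.log 253 := Real.log_nonneg (by norm_num)
  -- the grid
  obtain ⟨i, hi, d, hd, hid⟩ := grid_rect
    (f₁ := fun i k => g1 F A σ (N' + 1) X Δ r w₀ V₀ H q₀ a t s a' t' (1 + i) k)
    (f₂ := fun i k => g2 F A σ (N' + 1) X Δ r w₀ V₀ H q₀ a t s a' t' (1 + i) k)
    (f₃ := fun i k => g3 F A σ (N' + 1) X Δ r w₀ V₀ H q₀ a t s a' t' (1 + i) k)
    (fun i k => sub_nonneg.2 (CH_mono_cond h0 fun ω ω' _ _ h => (Prod.ext_iff.mp h).2))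
    (fun i k => sub_nonneg.2 (CH_mono_cond h0 fun ω ω' _ _ h => (Prod.ext_iff.mp h).2))
    (N := N') (M := M₁) hN'0 hM₁N (S₁ := B)
    (S₂ := 2 * (X * Real.log 2 + Real.log (6 * 42 + 1)) + 2 * C * N')
    (S₃ := X * Real.log 2 + 2 * C * N')
    (fun i hi => (sum1 hQ h.XΔ (1 + i) (N' + M₁)).trans (h.dig (1 + i) (by omega)))
    (fun k _ => sum2 h.inj hQ h.XΔ h.Xr hF hJ (by omega) k hC1 hC2)
    (fun d _ => sum3 h.inj hQ h.XΔ h.Xr hF hJ (by omega) d hC0 hC3)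
    (by
      have e1 : (6 : ℝ) * 42 + 1 = 253 := by norm_num
      rw [e1]
      positivity)
  have p1 : 0 ≤ g1 F A σ (N' + 1) X Δ r w₀ V₀ H q₀ a t s a' t' (1 + i) (i + d) :=
    sub_nonneg.2 (CH_mono_cond h0 fun ω ω' _ _ h => (Prod.ext_iff.mp h).2)
  have p2 : 0 ≤ g2 F A σ (N' + 1) X Δ r w₀ V₀ H q₀ a t s a' t' (1 + i) (i + d) :=
    sub_nonneg.2 (CH_mono_cond h0 fun ω ω' _ _ h => (Prod.ext_iff.mp h).2)
  have p3 : 0 ≤ g3 F A σ (N' + 1) X Δ r w₀ V₀ H q₀ a t s a' t' (1 + i) (i + d) :=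
    sub_nonneg.2 (CH_mono_cond h0 fun ω ω' _ _ h => (Prod.ext_iff.mp h).2)
  have hsum : B / M₁ + 2 * (2 * (X * Real.log 2 + Real.log (6 * 42 + 1)) + 2 * C * N') / N' +
      (X * Real.log 2 + 2 * C * N') / N' ≤ ι / 20 * X := by
    have e1 : (6 : ℝ) * 42 + 1 = 253 := by norm_num
    rw [e1]
    have s1 : B / M₁ ≤ ι / 100 * X := by
      rw [div_le_iff₀ hM₁0]
      have := mul_le_mul_of_nonneg_right hM₁β (by positivity : (0 : ℝ) ≤ X)
      linarith only [hB, this]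
    have hN'p : (0 : ℝ) < N' := by linarith only [hN', h200, hl2, hl2']
    have hNι : 400 ≤ ι * N' := by
      have h1 : 400 / ι ≤ N' := by linarith only [hN', hl2, hl2']
      rw [div_le_iff₀ hι] at h1
      linarith only [h1]
    have s2 : 2 * (2 * (X * Real.log 2 + Real.log 253) + 2 * C * N') / N' +
        (X * Real.log 2 + 2 * C * N') / N' ≤ 5 * 0.7 / 400 * ι * X +
          (4 * Real.log 253 + 6 * C) := by
      rw [← add_div, div_le_iff₀ hN'p]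
      have t1 : (X : ℝ) * Real.log 2 ≤ 0.7 * X := by nlinarith only [hl2]
      have t2 : 5 * 0.7 * (X : ℝ) ≤ 5 * 0.7 / 400 * ι * X * N' := by
        have : (X : ℝ) * 400 ≤ X * (ι * N') := mul_le_mul_of_nonneg_left hNι (by linarith only [hXr, hl2, hl2'])
        nlinarith only [this]
      have t3 : 4 * Real.log 253 ≤ 4 * Real.log 253 * N' := by nlinarith only [hN', h253, h200]
      nlinarith only [t1, t2, t3]
    have s3 : 5 * 0.7 / 400 * ι * X = 0.00875 * (ι * X) := by ring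
    rw [s3] at s2
    have hιX : 0 ≤ ι * X := by positivity
    linarith only [hC, l1, l2, l3, hXc, hl2, hl2', h253, s1, s2]
  have hid' := hid.trans hsum
  have q1 : g1 F A σ (N' + 1) X Δ r w₀ V₀ H q₀ a t s a' t' (1 + i) (i + d) ≤ ι / 20 * X := by
    linarith only [hid, p2, p3, hsum]
  have q2 : g2 F A σ (N' + 1) X Δ r w₀ V₀ H q₀ a t s a' t' (1 + i) (i + d) ≤ ι / 20 * X := by
    linarith only [hid, p1, p3, hsum]
  have q3 : g3 F A σ (N' + 1) X Δ r w₀ V₀ H q₀ a t s a' t' (1 + i) (i + d) ≤ ι / 20 * X := by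
    linarith only [hid, p1, p2, hsum]
  have hιX : 0 ≤ ι * X := by positivity
  have hiN : 1 + i ≤ N' + 1 := by omega
  have hkM : i + d < N' + M₁ := by omega
  have hw : fw w₀ Δ (1 + i) ≤ J := (fw_le hiN).trans hJ
  have hwX : fw w₀ Δ (1 + i) + X ≤ J := by
    have := fw_le (w₀ := w₀) (Δ := Δ) hiN
    omega
  have hstr := h.str (1 + i) hiN (i + d) hkM
  -- the application
  refine key F.Ω _ _ _ _ (Pool.Agent.H49.Ent.cond F.p A True) _ _ _ _ _ _ _ _ _ _ _ _ X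
    (ocvdata (σ := σ) (q := fq q₀ Δ r (N' + 1) (1 + i) (i + d)) (X := X)
      (hF (1 + i) hiN) hQ) hX1 ?_ ?_ ?_ ?_ (h.act (1 + i) hiN (i + d) hkM) ?_
    (le_trans (h6a_of 0 hQ hstr) (by linarith only [hε])) (le_trans (h6b_of hQ ?_ hstr) (by linarith only)) ?_
  · -- (h1)
    rw [MI_T2 h0 h.inj]
    have k1 := h1r (F := F) (σ := σ) (q := fq q₀ Δ r (N' + 1) (1 + i) (i + d)) (X := X)
      (hF (1 + i) hiN) hw hQ h.time
    refine k1.trans ?_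
    have k2 : CH (Pool.Agent.H49.Ent.cond F.p A True) (fun ω => (a' ω, s ω, t' ω))
          (fun ω => (ctx F σ (fw w₀ Δ (1 + i)) (fq q₀ Δ r (N' + 1) (1 + i) (i + d))
            (fv V₀ r (1 + i)) H (a (1 + i)) s (t (1 + i)) ω, F.T ω)) -
        CH (Pool.Agent.H49.Ent.cond F.p A True) (fun ω => (a' ω, s ω, t' ω))
          (fun ω => (blk F σ (fw w₀ Δ (1 + i)) (fq q₀ Δ r (N' + 1) (1 + i) (i + d))
            (fv V₀ r (1 + i)) H X (a (1 + i)) s (t (1 + i)) ω,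
            (ctx F σ (fw w₀ Δ (1 + i)) (fq q₀ Δ r (N' + 1) (1 + i) (i + d))
              (fv V₀ r (1 + i)) H (a (1 + i)) s (t (1 + i)) ω, F.T ω))) ≤ ι / 20 * X := q1
    linarith only [hC, l1, l2, l3, he, hXc, hl2, hl2', h253, k2]
  · -- (h1')
    have k1 := h1r_dig (F := F) (σ := σ) (q := fq q₀ Δ r (N' + 1) (1 + i) (i + d)) (X := X)
      (hF (1 + i) hiN) hwX hQ h.time
    refine le_trans ?_ k1
    nlinarith only [hC, l1, l2, l3, he, hXc, h253, hl2, hl2']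
  · -- (h2)
    rw [CH_T2 h0 h.inj, CH_T2' h0 h.inj]
    exact le_trans q2 (by linarith only [hC, l1, l2, l3, hXc, hl2, hl2', h253])
  · -- (h3)
    rw [CH_T2 h0 h.inj, CH_T2' h0 h.inj]
    exact le_trans q3 (by linarith only [hC, l1, l2, l3, hXc, hl2, hl2', h253])
  · -- (h5)
    intro j hj E hE
    have k1 := h.row (1 + i) hiN (i + d) hkM j hj E hE
    exact_mod_cast k1
  · -- the slope is a function of the point
    intro ω ω' _ _ hh
    have h1 := (Prod.ext_iff.mp (Prod.ext_iff.mp hh).2).2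
    exact S2_det (T2_ext h1).1 (T2_ext h1).2
  · -- (h7)
    have k1 : CH (Pool.Agent.H49.Ent.cond F.p A True)
        (Pool.OCV.dgv X (nu2 F σ (fw w₀ Δ (1 + i)) (fq q₀ Δ r (N' + 1) (1 + i) (i + d))
          (fv V₀ r (1 + i)) H X (a (1 + i)) s (t (1 + i)) a' s t'))
        (fun ω => (ctx F σ (fw w₀ Δ (1 + i)) (fq q₀ Δ r (N' + 1) (1 + i) (i + d))
          (fv V₀ r (1 + i)) H (a (1 + i)) s (t (1 + i)) ω,
          T2 F (a (1 + i)) s (t (1 + i)) a' s t' ω)) ≤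
      CH (Pool.Agent.H49.Ent.cond F.p A True)
        (Pool.OCV.dgv X (nu2 F σ (fw w₀ Δ (1 + i)) (fq q₀ Δ r (N' + 1) (1 + i) (i + d))
          (fv V₀ r (1 + i)) H X (a (1 + i)) s (t (1 + i)) a' s t'))
        (fun ω => (ctx F σ (fw w₀ Δ (1 + i)) (fq q₀ Δ r (N' + 1) (1 + i) (i + d))
          (fv V₀ r (1 + i)) H (a (1 + i)) s (t (1 + i)) ω,
          (ctx F σ (fw w₀ Δ (1 + i)) (fq q₀ Δ r (N' + 1) (1 + i) (i + d))
          (fv V₀ r (1 + i)) H (a (1 + i)) s (t (1 + i)) ω,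
          T2 F (a (1 + i)) s (t (1 + i)) a' s t' ω))) :=
      CH_mono_cond h0 fun ω ω' _ _ hh => Prod.ext (Prod.ext_iff.mp hh).1 hh
    linarith only [hC, l1, l2, l3, hXc, hl2, hl2', h253, k1]

/-- **(HPLA, alpha)**, one family. -/
theorem hone_thm : HOneStmt := hone_of Pool.OCV.ocvr2

end Pool.S6H
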