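import Pool.Agent.H19.S6H.Lev
import Pool.Agent.H19.S6H.Zon
import Pool.Agent.H6.S6H.One
import Pool.Agent.H88.S6F.FallA
import Pool.Agent.H88.S6F.Tm
import Pool.Agent.H33.S6.Zof

/-!
# The plateau of `R - varpi`: the assembly of the class half

`halpha_of`: the statement `HAlphaStmt` from its pieces.
-/

set_option autoImplicit false

namespace Pool.S6C

open Finset Real
open Pool.Agent.H49.Ent Pool.Agent.H32.Dense Pool.STK Pool.KA Pool.KSAT Pool.K2S Pool.PB Pool.KS6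
  Pool.Sel51 Pool.FALL Pool.S6H

/-- **(CNV)** The pair of the normal positions from the static boxes. -/
def HCnvStmt : Prop :=
  ∃ cR : ℝ, ∀ (J : ℕ) (F : Fam 3 J) (A : F.Ω → Prop) (σ : Fin 3 → Fin 3)
    (N X Δ r w₀ V₀ H : ℕ) (c₁ c κ ϖ : ℝ) (a t : ℕ → F.Ω → ℝ) (s a' t' : F.Ω → ℝ),
    Function.Injective σ → IsLaw (Pool.Agent.H49.Ent.cond F.p A True) → w₀ + N * Δ + X ≤ J →
    (∀ i ≤ N, Pool.S6N.Frg F A (fw w₀ Δ i) (fv V₀ r i) H 4 (a i) s (t i) a' s t') → 0 < ϖ →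
    cR ≤ (c₁ - c) * ⌊κ * X⌋₊ * Real.log 2 → ∀ i ≤ N, ∀ q : ℕ,
    (∀ j : ℕ, (j + 1) * ⌊κ * X⌋₊ ≤ X → ∀ E : F.Ω → Prop,
      ϖ ≤ Pe (Pool.Agent.H49.Ent.cond F.p A True) E →
      CH (Pool.Agent.H49.Ent.cond (Pool.Agent.H49.Ent.cond F.p A True) E True)
        (F.sbx σ (q + fw w₀ Δ i) (q + fv V₀ r i + fw w₀ Δ i + (j + 1) * ⌊κ * X⌋₊)
          (q + (fv V₀ r i + H) + fw w₀ Δ i + (j + 1) * ⌊κ * X⌋₊) a' s t')
        (fun ω => (F.sbx σ (q + fw w₀ Δ i) (q + fv V₀ r i + fw w₀ Δ i + j * ⌊κ * X⌋₊)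
          (q + (fv V₀ r i + H) + fw w₀ Δ i + j * ⌊κ * X⌋₊) a' s t' ω, F.W ω)) ≤
        (2 - c₁) * ⌊κ * X⌋₊ * Real.log 2) →
    ∀ j : ℕ, (j + 1) * ⌊κ * X⌋₊ ≤ X → ∀ E : F.Ω → Prop,
      ϖ ≤ Pe (Pool.Agent.H49.Ent.cond F.p A True) E →
      CH (Pool.Agent.H49.Ent.cond (Pool.Agent.H49.Ent.cond F.p A True) E True)
        (Pool.OCV.dgv ((j + 1) * ⌊κ * X⌋₊) (nu2 F σ (fw w₀ Δ i) q (fv V₀ r i) H X
          (a i) s (t i) a' s t'))
        (fun ω => (Pool.OCV.dgv (j * ⌊κ * X⌋₊) (nu2 F σ (fw w₀ Δ i) q (fv V₀ r i) H X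
          (a i) s (t i) a' s t') ω,
          (Pool.S6N.ctx F σ (fw w₀ Δ i) q (fv V₀ r i) H (a i) s (t i) ω,
            T2 F (a i) s (t i) a' s t' ω))) ≤
        (2 - c) * ⌊κ * X⌋₊ * Real.log 2

theorem NoStrip.mono {Ω Λ : Type} [Fintype Ω] {m : ℕ} {p : Ω → ℝ} (hp : IsLaw p) {L : Ω → Λ}
    {S : Ω → Fin m → ℝ} {X : ℕ} {x₀ x₁ ε : ℝ} (hx : x₁ ≤ x₀) (h : NoStrip p L S X x₁ ε) :
    NoStrip p L S X x₀ ε := by
  refine le_trans (Pool.K2S.Uni.Pr_le_of hp.nonneg fun ω hω hE => ?_) h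
  obtain ⟨n, z, h1, h2, h3⟩ := hE
  refine ⟨n, z, h1, h2, h3.trans_le ?_⟩
  refine Pool.K2S.Uni.Pr_le_of (fun v => cond_nonneg hp.nonneg _ _ v) fun ρ _ hρ => ?_
  refine lt_of_lt_of_le (show |∑ i, n i * S ρ i - z| < (2 : ℝ) ^ (-(x₀ * X)) from hρ) ?_
  refine Real.rpow_le_rpow_of_exponent_le (by norm_num) ?_
  have : x₁ * (X : ℝ) ≤ x₀ * X := mul_le_mul_of_nonneg_right hx (Nat.cast_nonneg _)
  linarith only [this]

section

variable {σ : ℝ → Row} {act rc : ℚ → ℝ} {v₁ t : ℚ} {e₁ pe P g wr v₀ v a₀ α L e G : ℝ}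
  {J N : ℕ} {ul us : ℚ} {w₀ Δ r V₀ H X : ℕ}

theorem Zoh.L0 (hZ : Zoh σ act rc v₁ t e₁ pe P g wr v₀ v a₀ α L e G) : 0 < L := by
  have := hZ.eL
  have := hZ.e0
  linarith

theorem Zoh.G0 (hZ : Zoh σ act rc v₁ t e₁ pe P g wr v₀ v a₀ α L e G) : 0 < G := by
  have h1 := hZ.LG
  have h2 := hZ.L0
  have h3 := hZ.v0
  have h4 : 0 < (10 + 4 * v) * L := by positivity
  linarith only [h1, h4]

/-- The frames of the falling case. -/
theorem _root_.Pool.S6HF.HFr.ffr' {F : Fam 3 J} {A : F.Ω → Prop} {sg : Fin 3 → Fin 3}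
    {Va Rt Pu PN : ℕ} {a t : ℕ → F.Ω → ℝ} {s a' t' al nu kk bb : F.Ω → ℝ}
    (h : Pool.S6HF.HFr F A sg N w₀ Δ r V₀ H X Va Rt Pu PN a t s a' t' al nu kk bb) :
    FFr F A sg N w₀ Δ r V₀ H X Va Rt Pu PN a t s a' t' al nu kk bb :=
  ⟨h.bij, h.fn, h.ga, h.gti, h.ca, h.ct, (Nat.le_add_right _ _).trans h.va', h.rt', h.ga', h.gt',
    h.bd, h.fp, h.on1, h.on2, fun ω hω => (h.an1 ω hω).trans
      (div_le_div_of_nonneg_left (by norm_num) (by positivity)
        (pow_le_pow_right₀ (by norm_num) (Nat.le_add_right _ _))), h.an2⟩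

/-- **Room.** -/
theorem hlev_room (hZ : Zoh σ act rc v₁ t e₁ pe P g wr v₀ v a₀ α L e G)
    (hF : HLv J N g wr v₀ v L e ul us w₀ Δ r V₀ H X) (hX : (X : ℝ) ≤ L * J) :
    w₀ + N * Δ + X ≤ J := by
  have hL := hZ.L0
  have hG := hZ.G0
  have hv := hZ.v0
  have hLG := hZ.LG
  have hJ : (0 : ℝ) ≤ J := Nat.cast_nonneg _
  have hw := hF.zu
  have h4 : wr + 2 * L ≤ 1 := by
    have g7 := hZ.g7
    have g8 := hZ.g8
    have g10 := hZ.g10
    have g11 := hZ.g11
    have : 0 ≤ v * L := mul_nonneg hv.le hL.le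
    nlinarith only [hL, hLG, g7, g8, g10, g11, this]
  have h5 := mul_le_mul_of_nonneg_right h4 hJ
  have h6 : ((w₀ + N * Δ + X : ℕ) : ℝ) ≤ J := by
    rw [Nat.cast_add]
    have h7 : 0 ≤ L * J := by positivity
    linarith only [hX, hw, h5]
  exact_mod_cast h6

/-- The levels of the exact frame are not far from the levels of the windows. -/
theorem hlev_dig {Va Rt : ℕ} {C₀ x : ℝ} (hv : 0 < v) (he : 0 < e)
    (hF : HLv J N g wr v₀ v L e ul us w₀ Δ r V₀ H X)
    (hul : |(ul : ℝ) - wr| ≤ C₀ * x) (hus : |(us : ℝ) - wr| ≤ C₀ * x)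
    (vb : (Va : ℝ) ≤ (v₀ + v * (us - wr) + 2 * e) * J)
    (rb : (Rt : ℝ) ≤ (g - wr + v * (us - wr) + 2 * e) * J) (h1 : V₀ ≤ Va) (h2 : V₀ + H ≤ Rt) :
    ((Va - V₀ : ℕ) : ℝ) + ((Rt - (V₀ + H) : ℕ) : ℝ) ≤
      (4 * v * (C₀ * x) + 84 * e) * J := by
  have hJ : (0 : ℝ) ≤ J := Nat.cast_nonneg _
  have heJ : 0 ≤ e * J := by positivity
  rw [abs_le] at hul hus
  have hvt := hF.vt' 0 (Nat.zero_le _)
  have hrt := hF.rt' 0 (Nat.zero_le _)
  rw [zero_mul, add_zero, zero_mul, add_zero] at hvt hrt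
  have hul1 := hF.ul1
  rw [Nat.cast_sub h1, Nat.cast_sub h2]
  obtain ⟨y, hy⟩ : ∃ y, y = C₀ * x := ⟨_, rfl⟩
  rw [← hy] at hul hus ⊢
  -- the window
  have k1 : -(y * J) ≤ (w₀ : ℝ) - wr * J := by
    have := mul_le_mul_of_nonneg_right hul.1 hJ
    nlinarith only [heJ, hul1, this]
  have k2 : (us : ℝ) * J - wr * J ≤ y * J := by
    have := mul_le_mul_of_nonneg_right hus.2 hJ
    nlinarith only [this]
  have m1 : v * (-(y * J)) ≤ v * ((w₀ : ℝ) - wr * J) := mul_le_mul_of_nonneg_left k1 hv.le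
  have m2 : v * ((us : ℝ) * J - wr * J) ≤ v * (y * J) := mul_le_mul_of_nonneg_left k2 hv.le
  have e2 : (v₀ + v * ((us : ℝ) - wr) + 2 * e) * J =
      v₀ * J + v * ((us : ℝ) * J - wr * J) + 2 * (e * J) := by ring
  have e3 : (g - wr + v * ((us : ℝ) - wr) + 2 * e) * J =
      (g - wr) * J + v * ((us : ℝ) * J - wr * J) + 2 * (e * J) := by ring
  rw [e2] at vb
  rw [e3] at rb
  have e4 : (4 * v * y + 84 * e) * (J : ℝ) = 4 * (v * (y * J)) + 84 * (e * J) := by
    ring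
  rw [e4]
  have e6 : 50 * e * (J : ℝ) = 50 * (e * J) := by ring
  have e7 : 30 * e * (J : ℝ) = 30 * (e * J) := by ring
  rw [e6] at hrt
  rw [e7] at hvt
  linarith only [vb, rb, hvt, hrt, m1, m2]

end

/-- **(alpha)** from its pieces. -/
theorem halpha_of (hFF : HFrStmt) (hAc : HActStmt) (hR : HRowStmt) (hSt : HStrStmt)
    (hCv : HCnvStmt) : HAlphaStmt := by
  intro S a₁ R₁ h₁ i₀ c s₂ r' D σ hC act K W v₁ t e₁ Q₀ P g v₀ v a₀ α hL hv pe rc hrc hpe1 hpe2
    hslp
  have hc := hC.c0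
  have hα := hL.α0
  have hl2 : 0 < Real.log 2 := Real.log_pos (by norm_num)
  obtain ⟨x₀, η, κ, ϖ, ι, ε, N, hx₀, hη, hη1, hκ, hκ1, hϖ, hι, hε, hone⟩ :=
    hone_thm (c / 2) (α / 2) (by positivity) (by positivity)
  obtain ⟨Dn, C₀, hDn, hC₀, hDC, hlev⟩ := hlev N v hv
  obtain ⟨β, hβ⟩ : ∃ β : ℝ, β = 2 * (4 * v * C₀ + 1) * Real.log 2 + 1 := ⟨_, rfl⟩
  obtain ⟨M, X₀, hone⟩ := hone β
  obtain ⟨cR, hcnv⟩ := hCv
  obtain ⟨δ, hδ⟩ : ∃ δ : ℝ, δ = c * κ * Real.log 2 / 16 := ⟨_, rfl⟩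
  have hδ0 : 0 < δ := by rw [hδ]; positivity
  obtain ⟨C₁, hC₁, hrow⟩ := hR S a₁ R₁ h₁ i₀ c s₂ r' D σ hC act K W v₁ t e₁ Q₀ P g v₀ v a₀ α hL
    hv N C₀ κ ϖ δ hC₀ hκ hκ1 hϖ hδ0
  -- the number of places
  obtain ⟨n, hn⟩ := exists_nat_gt (((M + N : ℕ) : ℝ) * C₁ / δ)
  have hn0 : 0 < n := by
    have h1 : (0 : ℝ) ≤ ((M + N : ℕ) : ℝ) * C₁ / δ := by positivity
    have h2 : (0 : ℝ) < n := h1.trans_lt hn
    exact_mod_cast h2
  rw [div_lt_iff₀ hδ0] at hn
  obtain ⟨x₃, hx₃⟩ : ∃ x₃ : ℝ, x₃ = min 1 x₀ := ⟨_, rfl⟩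
  have hx₃0 : 0 < x₃ := by rw [hx₃]; exact lt_min one_pos hx₀
  have hx₃1 : x₃ ≤ 1 := by rw [hx₃]; exact min_le_left _ _
  have hx₃2 : x₃ ≤ x₀ := by rw [hx₃]; exact min_le_right _ _
  -- the zone
  obtain ⟨C, hCd⟩ : ∃ C : ℝ, C = 2 * (2 * (M + N + 1) * C₀ + n * C₁ + 2) + 16 + C₀ := ⟨_, rfl⟩
  have hC0 : 0 < C := by rw [hCd]; positivity
  obtain ⟨ε₀, x₁, hε₀, hx₁, hrow⟩ := hrow C hC0
  exact by
   obtain ⟨εz, hεz, hall⟩ := exists_room [ε₀, 1 / (1000 * (1 + v)), C / 100,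
     x₃ / 1000, α * η / 64] (by
     intro y hy
     simp only [List.mem_cons, List.not_mem_nil, or_false] at hy
     rcases hy with h | h | h | h | h <;> · rw [h]; positivity)
   simp only [List.mem_cons, List.not_mem_nil, or_false, forall_eq_or_imp, forall_eq] at hall
   obtain ⟨b1, b2, b3, b4, b5⟩ := hall
   rw [lt_div_iff₀ (by positivity)] at b2 b3 b4 b5
   obtain ⟨x₂, hx₂, hzoh⟩ := zoh_of_loc hC hL hv hpe1 hpe2 hslp hC0 hεz (by linarith only [b3])
   obtain ⟨x, hx⟩ : ∃ x : ℝ, x = min x₁ x₂ := ⟨_, rfl⟩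
   have hx0 : 0 < x := by rw [hx]; exact lt_min hx₁ hx₂
   have hxx₁ : x ≤ x₁ := by rw [hx]; exact min_le_left _ _
   have hZ := hzoh x hx0 (by rw [hx]; exact min_le_right _ _)
   obtain ⟨L, hLd⟩ : ∃ L : ℝ, L = C * x := ⟨_, rfl⟩
   obtain ⟨e, he⟩ : ∃ e : ℝ, e = εz * x := ⟨_, rfl⟩
   obtain ⟨G, hG⟩ : ∃ G : ℝ, G = (10 + 4 * v) * C * x := ⟨_, rfl⟩
   rw [← hG, ← hLd, ← he] at hZ
   have hL0 := hZ.L0
   have hG0 := hZ.G0
   have he0 := hZ.e0
   have hLG : L ≤ G := by
     have h1 := hZ.LG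
     have h2 : 0 ≤ v * L := by positivity
     linarith only [hL0, h1, h2]
   have hC₀L : C₀ * x ≤ L := by
     rw [hLd]
     refine mul_le_mul_of_nonneg_right ?_ hx0.le
     rw [hCd]
     have : 0 ≤ 2 * (2 * ((M : ℝ) + N + 1) * C₀ + n * C₁ + 2) + 16 := by positivity
     linarith only [this]
   exact by
    obtain ⟨ul, us, J₁, hul, hus, hlev⟩ := hlev x e L g (W g) v₀ hx0 he0 (by
        rw [he]
        have := mul_le_mul_of_nonneg_right b2.le hx0.le
        linarith only [this]) hC₀L (hLG.trans_lt hZ.g9) (hZ.LG.trans_lt hZ.g10) hZ.g11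
    have hrow := hrow rc pe x L e G hx0 hxx₁ hLd.le he0 (by
        rw [he]; exact mul_le_mul_of_nonneg_right b1.le hx0.le) hZ ul us hul hus
    have hCC : 16 * x ≤ L := by
      rw [hLd]
      refine mul_le_mul_of_nonneg_right ?_ hx0.le
      rw [hCd]
      have : 0 ≤ 2 * (2 * ((M : ℝ) + N + 1) * C₀ + n * C₁ + 2) + C₀ := by positivity
      linarith only [this]
    -- the classes
    have c1 := tm_clp hC.st (e := ι * x / 2) (by positivity)
    have c2 := hFF S a₁ R₁ h₁ i₀ c s₂ r' D σ hC act K W v₁ t e₁ Q₀ P g v₀ v a₀ α hL rc pe L e G hZ N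
      ul us
    have c3 := hSt S a₁ R₁ h₁ i₀ c s₂ r' D σ hC act rc v₁ t e₁ pe P g (W g) v₀ v a₀ α L e G hrc hZ
      N ul us x x₃ ε hx₃0 hx₃1 (by
        rw [he]
        have := mul_le_mul_of_nonneg_right b4.le hx0.le
        linarith only [this]) (by linarith only [hx0, hCC]) hε
    have c5 := hAc S a₁ R₁ h₁ i₀ c s₂ r' D σ hC act rc v₁ t e₁ pe P g (W g) v₀ v a₀ α L e G hL.actN
      hL.amono hL.alip hZ N ul us (α / 2) η ϖ x (by positivity) (by linarith only [hα]) hη hη1 hϖ hx0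
      (by linarith only [hx0, hCC]) (by
        rw [he]
        have := mul_le_mul_of_nonneg_right b5.le hx0.le
        have e1 : (α - α / 2) * η * x = α * η * x / 2 := by ring
        rw [e1]
        nlinarith only [he, he0, this])
    -- large `X`
    exact by
     obtain ⟨K₁, hK₁⟩ : ∃ K₁ : ℕ, X₀ ≤ K₁ ∧ 2 / κ ≤ K₁ ∧ 2 * Real.log 9 ≤ K₁ ∧
         cR ≤ c / 4 * (κ * K₁ / 2) * Real.log 2 ∧ 2 ≤ K₁ := by
       obtain ⟨k1, hk1⟩ := exists_nat_gt (2 / κ)
       obtain ⟨k2, hk2⟩ := exists_nat_gt (2 * Real.log 9)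
       obtain ⟨k3, hk3⟩ := exists_nat_gt (cR / (c / 4 * (κ / 2) * Real.log 2))
       rw [div_lt_iff₀ (by positivity)] at hk3
       refine ⟨X₀ + k1 + k2 + k3 + 2, by omega, ?_, ?_, ?_, by omega⟩
       · push_cast
         have : (0 : ℝ) ≤ X₀ := Nat.cast_nonneg _
         have : (0 : ℝ) ≤ k2 := Nat.cast_nonneg _
         have : (0 : ℝ) ≤ k3 := Nat.cast_nonneg _
         linarith only [hx₃1, hεz, b4, hk1]
       · push_cast
         have : (0 : ℝ) ≤ X₀ := Nat.cast_nonneg _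
         have : (0 : ℝ) ≤ k1 := Nat.cast_nonneg _
         have : (0 : ℝ) ≤ k3 := Nat.cast_nonneg _
         linarith only [hx₃1, hεz, b4, hk2]
       · push_cast
         have h1 : (k3 : ℝ) ≤ X₀ + k1 + k2 + k3 + 2 := by
           have : (0 : ℝ) ≤ X₀ := Nat.cast_nonneg _
           have : (0 : ℝ) ≤ k1 := Nat.cast_nonneg _
           have : (0 : ℝ) ≤ k2 := Nat.cast_nonneg _
           linarith only [hx₃1, hεz, b4]
         have h2 := mul_le_mul_of_nonneg_right h1
           (by positivity : 0 ≤ c / 4 * (κ / 2) * Real.log 2)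
         linarith only [hk3, h2]
     obtain ⟨J₂, hJ₂⟩ := exists_nat_gt (((K₁ : ℝ) + 2) * 2 / x)
     rw [div_lt_iff₀ hx0] at hJ₂
     refine Clp.not_false hC.ne (Clp.mono (J₂ := max J₁ J₂)
       (c1.and (c2.and (c3.and (c5.and hrow)))) ?_)
     exact by
      rintro J hJ F A ⟨⟨hl, ht⟩, h2, h3, h5, h6⟩
      have hJ1 : J₁ ≤ J := (le_max_left _ _).trans hJ
      have hJ2 : J₂ ≤ J := (le_max_right _ _).trans hJ
      have hJ2r : (J₂ : ℝ) ≤ J := by exact_mod_cast hJ2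
      have hJ0 : (0 : ℝ) ≤ J := Nat.cast_nonneg _
      have hxJ : ((K₁ : ℝ) + 2) * 2 ≤ x * J := by
        have := mul_le_mul_of_nonneg_right hJ2r hx0.le
        linarith only [hJ₂, this]
      obtain ⟨X, hX⟩ : ∃ X : ℕ, X = ⌊x * J⌋₊ := ⟨_, rfl⟩
      obtain ⟨w₀, r, V₀, H, hr, hF⟩ := hlev J hJ1
      rw [← hX] at hr hF
      have hK0 : (0 : ℝ) ≤ K₁ := Nat.cast_nonneg _
      have hX1 : (X : ℝ) ≤ x * J := by
        rw [hX]
        exact Nat.floor_le (by positivity)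
      have hX2 : x * J < X + 1 := by
        rw [hX]
        exact Nat.lt_floor_add_one _
      have hXh : x * J / 2 ≤ X := by linarith only [hx₃1, hεz, b4, hxJ, hX2]
      have hXK : (K₁ : ℝ) ≤ X := by linarith only [hx₃1, hεz, b4, hxJ, hX2]
      have hXKn : K₁ ≤ X := by exact_mod_cast hXK
      have hX0 : (0 : ℝ) < X := by linarith only [hx₃1, hεz, b4, hxJ, hX2]
      obtain ⟨hKX, hKκ, hKl, hKr, hK2⟩ := hK₁
      obtain ⟨Va, Rt, sg, a, tt, s, a', t', al, nu, kk, bb, zl, zs, hsg, hFr, hNr⟩ :=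
        h2 w₀ (Dn * X) r V₀ H X hF
      have hΔr : ((Dn * X : ℕ) : ℝ) ≤ C₀ * X := by
        push_cast
        exact mul_le_mul_of_nonneg_right hDC hX0.le
      obtain ⟨X', loss, hX'0, hX'1, hloss, hsum, hbox⟩ := h6 w₀ (Dn * X) r V₀ H X Va Rt sg a tt s a' t'
        al nu kk bb zl zs hsg hF hX hΔr hr hFr hNr
      -- the good place
      exact by
       obtain ⟨qb, hqb⟩ : ∃ qb : ℕ, qb = ⌊(P - g) * J⌋₊ := ⟨_, rfl⟩
       have hPg : 0 < P - g := hG0.trans hZ.g8
       have hqb1 : (qb : ℝ) ≤ (P - g) * J := by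
         rw [hqb]
         exact Nat.floor_le (by positivity)
       have hqb2 : (P - g) * J < qb + 1 := by
         rw [hqb]
         exact Nat.lt_floor_add_one _
       have hLx : x ≤ L := by linarith only [hx0, hCC]
       have hLJ : (2 : ℝ) ≤ L / 2 * J := by
         have h1 : 16 * x * J ≤ L * J := mul_le_mul_of_nonneg_right hCC hJ0
         linarith only [hx₃1, hεz, b4, hxJ, h1]
       have hrange : ∀ h m : ℕ, h ≤ M + N → m ≤ n →
           |((qb + h * (Dn * X + r) + m * X' : ℕ) : ℝ) - (P - g) * J| ≤ L / 2 * J := by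
         intro h m hh hm
         have h1 : (h : ℝ) ≤ M + N := by exact_mod_cast hh
         have h2 : (m : ℝ) ≤ n := by exact_mod_cast hm
         have h3 : ((Dn * X : ℕ) : ℝ) + r ≤ 2 * C₀ * X := by linarith only [hr, hΔr]
         have h30 : (0 : ℝ) ≤ ((Dn * X : ℕ) : ℝ) + r := by positivity
         have h4 : (h : ℝ) * (((Dn * X : ℕ) : ℝ) + r) ≤ (M + N) * (2 * C₀ * X) :=
           mul_le_mul h1 h3 h30 (by positivity)
         have h5 : (m : ℝ) * X' ≤ n * (C₁ * X) := mul_le_mul h2 hX'1 (by positivity) (by positivity)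
         have h6 : (M + N) * (2 * C₀ * X) + n * (C₁ * X) ≤ (2 * (M + N) * C₀ + n * C₁) * (x * J) := by
           have : 0 ≤ 2 * ((M : ℝ) + N) * C₀ + n * C₁ := by positivity
           have := mul_le_mul_of_nonneg_left hX1 this
           linarith only [this]
         have h7 : (2 * ((M : ℝ) + N) * C₀ + n * C₁) * (x * J) ≤ L / 2 * J := by
           have e1 : L / 2 * J = C / 2 * (x * J) := by rw [hLd]; ring
           rw [e1]
           refine mul_le_mul_of_nonneg_right ?_ (by positivity)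
           rw [hCd]
           have : 0 ≤ 2 * C₀ + 2 + 8 + C₀ / 2 := by positivity
           linarith only [hC₀, hx₃1, hεz, b4]
         have h8 : (0 : ℝ) ≤ (h : ℝ) * (((Dn * X : ℕ) : ℝ) + r) := by positivity
         have h9 : (0 : ℝ) ≤ (m : ℝ) * X' := by positivity
         have e2 : ((qb + h * (Dn * X + r) + m * X' : ℕ) : ℝ) =
             qb + h * (((Dn * X : ℕ) : ℝ) + r) + m * X' := by push_cast; ring
         rw [e2, abs_le]
         constructor <;> linarith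
       exact by
        obtain ⟨m, hm, hgood⟩ := exists_good (f := fun h m => loss (qb + h * (Dn * X + r) + m * X'))
          (m := M + N) (n := n) (C := C₁ * X) (δ := δ * X) (fun h k => hloss _)
          (fun h hh => by
            refine hsum (qb + h * (Dn * X + r)) n ?_ ?_
            · have := hrange h 0 hh.le (Nat.zero_le _)
              rwa [zero_mul, add_zero] at this
            · exact hrange h n hh.le le_rfl)
          hn0 (by
            have := mul_le_mul_of_nonneg_right hn.le hX0.le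
            linarith only [this])
        -- the places
        have hfq : ∀ i k : ℕ, fq (qb + m * X') (Dn * X) r N i k =
            qb + (k + (N - i)) * (Dn * X + r) + m * X' := by
          intro i k
          unfold fq
          ring
        have hXL : (X : ℝ) ≤ L * J := hX1.trans (mul_le_mul_of_nonneg_right hLx hJ0)
        have hroom0 := hlev_room hZ hF hXL
        have hplace : ∀ i ≤ N, ∀ k < M,
            |((fq (qb + m * X') (Dn * X) r N i k : ℕ) : ℝ) - (P - g) * J| ≤ L / 2 * J := by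
          intro i hi k hk
          rw [hfq]
          exact hrange _ m (by omega) hm.le
        have hVV : V₀ ≤ Va := by
          have h1 := hFr.va'
          unfold fv at h1
          omega
        have hRR : V₀ + H ≤ Rt := by
          have h1 := hFr.rt'
          unfold fv at h1
          omega
        exact by
         have hdg := hlev_dig hv he0 hF hul hus hNr.vb hNr.rb hVV hRR
         have hκX : κ * X / 2 ≤ ⌊κ * X⌋₊ := by
           have h1 : κ * X < ⌊κ * X⌋₊ + 1 := Nat.lt_floor_add_one _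
           have h2 : 2 ≤ κ * X := by
             have := mul_le_mul_of_nonneg_left (hKκ.trans hXK) hκ.le
             rw [mul_div_cancel₀ _ hκ.ne'] at this
             exact this
           linarith only [h1, h2]
         refine hone J F A sg X (Dn * X) r w₀ V₀ H (qb + m * X') 4 (ι * X) (β * X) a tt s a' t'
           (hKX.trans hXKn) le_rfl le_rfl ?_
         refine ⟨hFr.bij.1, hl, hF.XΔ, hF.Xr, hroom0, by norm_num, le_rfl,
           fun i hi => hFr.frg i hi, ?_, ?_, ?_, ?_, ?_⟩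
         · -- time
           have h7 : ι * x / 2 * J ≤ ι * X := by
             have := mul_le_mul_of_nonneg_left hXh hι.le
             linarith only [this]
           linarith only [ht, h7]
         · -- dig
           intro i hi
           refine (hFr.ffr'.dig hi hl).trans ?_
           have h7 : (4 * v * (C₀ * x) + 84 * e) * J ≤ (4 * v * C₀ + 1) * (x * J) := by
             have h8 : 84 * e ≤ 1 * x := by
               rw [he]
               have h9 := mul_le_mul_of_nonneg_right b2.le hx0.le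
               have h10 : 0 ≤ v * (εz * x) := by positivity
               have h11 : 0 ≤ εz * x := by positivity
               linarith only [hx0, h9, h10]
             have h9 := mul_le_mul_of_nonneg_right h8 hJ0
             linarith only [h9]
           have h8 : (4 * v * C₀ + 1) * (x * J) ≤ (4 * v * C₀ + 1) * (2 * X) :=
             mul_le_mul_of_nonneg_left (by linarith only [hx₃1, hεz, b4, hxJ, hX2]) (by positivity)
           have h9 := mul_le_mul_of_nonneg_right (hdg.trans (h7.trans h8)) hl2.le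
           have h10 : 2 * Real.log 9 ≤ X := hKl.trans hXK
           rw [hβ]
           linarith only [hx₃1, hεz, b4, hxJ, hX2, hKl, h9]
         · -- act
           intro i hi k hk
           exact h5 w₀ (Dn * X) r V₀ H X Va Rt sg a tt s a' t' al nu kk bb hsg hF hX hFr i hi _
             (hplace i hi k hk)
         · -- row
           intro i hi k hk
           refine hcnv J F A sg N X (Dn * X) r w₀ V₀ H (3 * c / 4) (c / 2) κ ϖ a tt s a' t' hFr.bij.1 hl
             hroom0 (fun i hi => hFr.frg i hi) hϖ ?_ i hi _ ?_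
           · have h7 : κ * K₁ / 2 ≤ (⌊κ * X⌋₊ : ℝ) := by
               have := mul_le_mul_of_nonneg_left hXK hκ.le
               linarith only [hκX, this]
             have h8 : c / 4 * (κ * K₁ / 2) * Real.log 2 ≤ c / 4 * (⌊κ * X⌋₊ : ℝ) * Real.log 2 := by
               refine mul_le_mul_of_nonneg_right ?_ hl2.le
               exact mul_le_mul_of_nonneg_left h7 (by positivity)
             have e1 : (3 * c / 4 - c / 2) * (⌊κ * X⌋₊ : ℝ) * Real.log 2 =
                 c / 4 * (⌊κ * X⌋₊ : ℝ) * Real.log 2 := by ring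
             rw [e1]
             linarith only [hKr, h8]
           · intro j hj E hE
             have h7 := hbox i hi _ (hplace i hi k hk) j hj E hE
             refine h7.trans ?_
             have h8 : loss (qb + (k + (N - i)) * (Dn * X + r) + m * X') ≤ δ * X :=
               hgood (k + (N - i)) (by omega)
             rw [← hfq i k] at h8
             have h9 : 2 * (δ * X) ≤ c / 4 * (⌊κ * X⌋₊ : ℝ) * Real.log 2 := by
               have h10 := mul_le_mul_of_nonneg_left hκX (by positivity : 0 ≤ c / 4 * Real.log 2)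
               rw [hδ]
               linarith only [h10]
             linarith only [h8, h9]
         · -- str
           intro i hi k hk
           exact NoStrip.mono hl hx₃2
             (h3 w₀ (Dn * X) r V₀ H X Va Rt sg a tt s a' t' al nu kk bb hsg hF hX hFr i hi _)

end Pool.S6C
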