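import Pool.Agent.H97.S6.H2R
import Pool.Agent.H45.OCV.Real

/-!
# The plateau of `R - varpi`: contexts, the pair of the normal positions, the visible part

The pair of positions modulo the direction `(1, a', s' a' + t')` of the fan, in the coordinates of
the context. `T2` is the generalised time: the frame of the context, the time and the exact frame.
`vis` is the visible part of the context: the position and the velocity modulo the direction of
the fan of the centre of the context, at the time of the sample.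
-/

set_option autoImplicit false

namespace Pool.S6H

open Finset Real
open Pool.Agent.H49.Ent Pool.Agent.H32.Dense Pool.STK Pool.KA Pool.KSAT Pool.K2S Pool.S6N

variable {J : ℕ}

/-- The slopes of the direction of the fan in the context. -/
noncomputable def S2 {Ω : Type} (V H : ℕ) (a s t a' s' t' : Ω → ℝ) (ω : Ω) (i : Fin 2) : ℝ :=
  ![EE V a a' ω, SS V H a s t s' t' 0 ω + SS V H a s t s' t' 1 ω * EE V a a' ω] i

/-- The generalised time. -/
def T2 (F : Fam 3 J) (a s t a' s' t' : F.Ω → ℝ) (ω : F.Ω) :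
    (ℝ × ℝ × ℝ) × (ℕ × (ℝ × ℝ × ℝ)) := ((a ω, s ω, t ω), gt F a' s' t' ω)

/-- The label of the line. -/
noncomputable def LL (F : Fam 3 J) (σ : Fin 3 → Fin 3) (w q V H X : ℕ) (a s t : F.Ω → ℝ)
    (ω : F.Ω) := (blk F σ w q V H X a s t ω, ctx F σ w q V H a s t ω)

/-- The known part of the normal positions. -/
noncomputable def kn2 (F : Fam 3 J) (σ : Fin 3 → Fin 3) (w q V H : ℕ)
    (a s t a' s' t' : F.Ω → ℝ) (ω : F.Ω) (i : Fin 2) : ℝ :=
  F.mkn w (cv q V H) (fr σ a s t) ω i.succ -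
    S2 V H a s t a' s' t' ω i * F.mkn w (cv q V H) (fr σ a s t) ω 0

/-- The normal positions. -/
noncomputable def nu2 (F : Fam 3 J) (σ : Fin 3 → Fin 3) (w q V H X : ℕ)
    (a s t a' s' t' : F.Ω → ℝ) (ω : F.Ω) (i : Fin 2) : ℝ :=
  yy F σ w q V H X a s t i.succ ω + F.wt w ω * om F σ q V H X a s t i.succ ω -
    S2 V H a s t a' s' t' ω i * (yy F σ w q V H X a s t 0 ω +
      F.wt w ω * om F σ q V H X a s t 0 ω) + kn2 F σ w q V H a s t a' s' t' ω i

/-- The velocity of the centre modulo the direction of the fan. -/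
noncomputable def vc2 (F : Fam 3 J) (σ : Fin 3 → Fin 3) (q V H : ℕ)
    (a s t a' s' t' : F.Ω → ℝ) (ω : F.Ω) (i : Fin 2) : ℝ :=
  F.mvl (cv q V H) (fr σ a s t) ω i.succ -
    S2 V H a s t a' s' t' ω i * F.mvl (cv q V H) (fr σ a s t) ω 0

/-- The visible part of the context. -/
noncomputable def vis (F : Fam 3 J) (σ : Fin 3 → Fin 3) (w q V H : ℕ)
    (a s t a' s' t' : F.Ω → ℝ) (ω : F.Ω) : (ℤ × (Fin 2 → ℤ)) × ((Fin 2 → ℤ) × F.ζ) :=
  ((⌊F.mkn w (cv q V H) (fr σ a s t) ω 0⌋, fun i => ⌊kn2 F σ w q V H a s t a' s' t' ω i⌋),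
    (fun i => ⌊vc2 F σ q V H a s t a' s' t' ω i⌋, F.Z ω))

section lemmas

variable {F : Fam 3 J} {A : F.Ω → Prop} {σ : Fin 3 → Fin 3} {w q V H X : ℕ} {D : ℝ}
  {a s t a' s' t' : F.Ω → ℝ}

theorem S2_0 (V H : ℕ) (a s t a' s' t' : F.Ω → ℝ) (ω : F.Ω) :
    S2 V H a s t a' s' t' ω 0 = EE V a a' ω := rfl

theorem S2_1 (V H : ℕ) (a s t a' s' t' : F.Ω → ℝ) (ω : F.Ω) :
    S2 V H a s t a' s' t' ω 1 =
      SS V H a s t s' t' 0 ω + SS V H a s t s' t' 1 ω * EE V a a' ω := rfl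

theorem S2_le (hF : Frg F A w V H D a s t a' s' t') {ω : F.Ω} (hω : A ω) (i : Fin 2) :
    |S2 V H a s t a' s' t' ω i| ≤ D + D * D := by
  have h0 := SS_le hF 0 hω
  have h1 := SS_le hF 1 hω
  have h2 := EE_le hF hω
  have hD : 0 ≤ D := (abs_nonneg _).trans h2
  fin_cases i
  · show |EE V a a' ω| ≤ D + D * D
    nlinarith
  · show |SS V H a s t s' t' 0 ω + SS V H a s t s' t' 1 ω * EE V a a' ω| ≤ D + D * D
    refine (abs_add_le _ _).trans (add_le_add h0 ?_)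
    rw [abs_mul]
    exact mul_le_mul h1 h2 (abs_nonneg _) hD

theorem T2_ext {ω ω' : F.Ω} (h : T2 F a s t a' s' t' ω = T2 F a s t a' s' t' ω') :
    (a ω = a ω' ∧ s ω = s ω' ∧ t ω = t ω') ∧ gt F a' s' t' ω = gt F a' s' t' ω' := by
  have h1 := Prod.ext_iff.mp h
  have h2 := Prod.ext_iff.mp h1.1
  have h3 := Prod.ext_iff.mp h2.2
  exact ⟨⟨h2.1, h3.1, h3.2⟩, h1.2⟩

theorem S2_det {ω ω' : F.Ω} (h1 : a ω = a ω' ∧ s ω = s ω' ∧ t ω = t ω')
    (h' : gt F a' s' t' ω = gt F a' s' t' ω') :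
    S2 V H a s t a' s' t' ω = S2 V H a s t a' s' t' ω' := by
  obtain ⟨e1, e2, e3⟩ := h1
  obtain ⟨g0, g1, g2, g3⟩ := gt_ext h'
  funext i
  unfold S2 EE SS
  rw [e1, e2, e3, g1, g2, g3]

theorem mkn_ctx {ω ω' : F.Ω} (h : ctx F σ w q V H a s t ω = ctx F σ w q V H a s t ω')
    (h' : F.T ω = F.T ω') :
    F.mkn w (cv q V H) (fr σ a s t) ω = F.mkn w (cv q V H) (fr σ a s t) ω' :=
  Box.mkn_det h h'

theorem mvl_ctx {ω ω' : F.Ω} (h : ctx F σ w q V H a s t ω = ctx F σ w q V H a s t ω') :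
    F.mvl (cv q V H) (fr σ a s t) ω = F.mvl (cv q V H) (fr σ a s t) ω' :=
  (Box.mlb_ext h).2.2.2.1

theorem Z_ctx {ω ω' : F.Ω} (h : ctx F σ w q V H a s t ω = ctx F σ w q V H a s t ω') :
    F.Z ω = F.Z ω' := (Box.mlb_ext h).2.2.2.2

theorem kn2_det {ω ω' : F.Ω} (h : ctx F σ w q V H a s t ω = ctx F σ w q V H a s t ω')
    (h' : T2 F a s t a' s' t' ω = T2 F a s t a' s' t' ω') :
    kn2 F σ w q V H a s t a' s' t' ω = kn2 F σ w q V H a s t a' s' t' ω' := by
  obtain ⟨h1, h2⟩ := T2_ext h'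
  have k1 := mkn_ctx h (gt_ext h2).1
  have k2 := S2_det (V := V) (H := H) h1 h2
  funext i
  unfold kn2
  rw [k1, k2]

theorem vc2_det {ω ω' : F.Ω} (h : ctx F σ w q V H a s t ω = ctx F σ w q V H a s t ω')
    (h' : T2 F a s t a' s' t' ω = T2 F a s t a' s' t' ω') :
    vc2 F σ q V H a s t a' s' t' ω = vc2 F σ q V H a s t a' s' t' ω' := by
  obtain ⟨h1, h2⟩ := T2_ext h'
  have k1 := mvl_ctx h
  have k2 := S2_det (V := V) (H := H) h1 h2
  funext i
  unfold vc2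
  rw [k1, k2]

theorem vis_det {ω ω' : F.Ω} (h : ctx F σ w q V H a s t ω = ctx F σ w q V H a s t ω')
    (h' : T2 F a s t a' s' t' ω = T2 F a s t a' s' t' ω') :
    vis F σ w q V H a s t a' s' t' ω = vis F σ w q V H a s t a' s' t' ω' := by
  obtain ⟨h1, h2⟩ := T2_ext h'
  have k1 := mkn_ctx h (gt_ext h2).1
  unfold vis
  rw [k1, kn2_det h h', vc2_det h h', Z_ctx h]

theorem LL_ext {ω ω' : F.Ω} (h : LL F σ w q V H X a s t ω = LL F σ w q V H X a s t ω') :
    blk F σ w q V H X a s t ω = blk F σ w q V H X a s t ω' ∧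
      ctx F σ w q V H a s t ω = ctx F σ w q V H a s t ω' :=
  ⟨(Prod.ext_iff.mp h).1, (Prod.ext_iff.mp h).2⟩

theorem yy_det {ω ω' : F.Ω} (h : blk F σ w q V H X a s t ω = blk F σ w q V H X a s t ω')
    (i : Fin 3) : yy F σ w q V H X a s t i ω = yy F σ w q V H X a s t i ω' := by
  have h1 := congrFun (Prod.ext_iff.mp h).1 i
  unfold yy
  simp only [blk] at h1
  rw [h1]

theorem om_det {ω ω' : F.Ω} (h : blk F σ w q V H X a s t ω = blk F σ w q V H X a s t ω')
    (i : Fin 3) : om F σ q V H X a s t i ω = om F σ q V H X a s t i ω' := by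
  have h1 := congrFun (Prod.ext_iff.mp h).2 i
  unfold om
  simp only [blk] at h1
  rw [h1]

end lemmas

end Pool.S6H
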