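import Pool.Agent.H6.S6H.Lin

/-!
# (H2) on the plateau: the chain with a fixed row, for the pair of the normal positions
-/

set_option autoImplicit false

namespace Pool.S6H

open Finset Real
open Pool.Agent.H49.Ent Pool.Agent.H32.Dense Pool.STK Pool.KA Pool.KSAT Pool.K2S Pool.S6N

variable {J : ℕ}

section fam3

variable {F : Fam 3 J} {A : F.Ω → Prop} {σ : Fin 3 → Fin 3} {w q V H X : ℕ} {D : ℝ}
  {a s t a' s' t' : F.Ω → ℝ}

/-- The digits of the line without the normal positions. -/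
noncomputable def vb2 (F : Fam 3 J) (σ : Fin 3 → Fin 3) (w q V H X : ℕ) (a s t : F.Ω → ℝ)
    (ω : F.Ω) : ℤ × (ℤ × (Fin 2 → ℤ)) :=
  (Uni.dg X (yy F σ w q V H X a s t 0) ω, (Uni.dg X (om F σ q V H X a s t 0) ω,
    Pool.OCV.dgv X (fun ω i => om F σ q V H X a s t (Fin.succ i) ω) ω))

/-- The exponents of the label with the digits `vb2`. -/
def kq (w q V H X : ℕ) (i : Fin 3) : ℕ := ![q + w + X, q + V + w, q + (V + H) + w] i

theorem vb2_of_mlb {ω ω' : F.Ω} (h : F.mlb w (kq w q V H X) (cv (q + X) V H) (fr σ a s t) ω =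
    F.mlb w (kq w q V H X) (cv (q + X) V H) (fr σ a s t) ω') :
    ctx F σ w q V H a s t ω = ctx F σ w q V H a s t ω' ∧
      vb2 F σ w q V H X a s t ω = vb2 F σ w q V H X a s t ω' := by
  have h1 : ctx F σ w q V H a s t ω = ctx F σ w q V H a s t ω' := by
    refine mlb_coarse F ?_ ?_ h
    · intro i
      fin_cases i
      · show q + w ≤ q + w + X
        omega
      · exact le_rfl
      · exact le_rfl
    · intro i
      rw [cv_add]
      exact Nat.le_add_right _ _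
  obtain ⟨k1, k2, k3, k4, k5⟩ := Box.mlb_ext h
  obtain ⟨g1, g2, g3, g4, g5⟩ := Box.mlb_ext h1
  have mu0 : (blk F σ w q V H X a s t ω).1 0 = (blk F σ w q V H X a s t ω').1 0 := by
    show ⌊(2 : ℝ) ^ X * F.mu w (fun i => cv q V H i + w) (fr σ a s t) ω 0⌋ =
      ⌊(2 : ℝ) ^ X * F.mu w (fun i => cv q V H i + w) (fr σ a s t) ω' 0⌋
    rw [Box.fl_mu, Box.fl_mu]
    have e1 := congrFun k3 0
    have e2 := congrFun g3 0
    have e3 : ∀ v, F.mps w (fun i => cv q V H i + w + X) (fr σ a s t) v 0 =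
        F.mps w (kq w q V H X) (fr σ a s t) v 0 := fun v => rfl
    rw [e3, e3, e1, e2]
  have md0 : ∀ i : Fin 3, (blk F σ w q V H X a s t ω).2 i = (blk F σ w q V H X a s t ω').2 i := by
    intro i
    show ⌊(2 : ℝ) ^ X * F.md (cv q V H) (fr σ a s t) ω i⌋ =
      ⌊(2 : ℝ) ^ X * F.md (cv q V H) (fr σ a s t) ω' i⌋
    rw [Box.fl_md, Box.fl_md]
    have e1 := congrFun k4 i
    have e2 := congrFun g4 i
    rw [cv_add] at e1
    rw [e1, e2]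
  refine ⟨h1, ?_⟩
  have ey : ∀ v : F.Ω, Uni.dg X (yy F σ w q V H X a s t 0) v =
      (blk F σ w q V H X a s t v).1 0 := fun v => dg_yy 0 v
  have eo : ∀ (i : Fin 3) (v : F.Ω), Uni.dg X (om F σ q V H X a s t i) v =
      (blk F σ w q V H X a s t v).2 i := fun i v => dg_om i v
  have ev : ∀ v : F.Ω, Pool.OCV.dgv X (fun ω i => om F σ q V H X a s t (Fin.succ i) ω) v =
      fun i : Fin 2 => (blk F σ w q V H X a s t v).2 i.succ := by
    intro v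
    funext i
    exact eo i.succ v
  unfold vb2
  rw [ey, ey, eo, eo, ev, ev, mu0]
  simp only [md0]

/-- **One step of the chain with a fixed row.** -/
theorem h2_step2 (hF : Frg F A w V H D a s t a' s' t') {w₁ q₁ V₁ : ℕ}
    {a₁ s₁ t₁ : F.Ω → ℝ} (hF₁ : Frg F A w₁ V₁ H D a₁ s₁ t₁ a' s' t')
    (hD : 0 ≤ D) (hQ : IsLaw (Pool.Agent.H49.Ent.cond F.p A True)) (hw : w ≤ J)
    (hwX : w₁ + X ≤ w) (hV : V₁ + X ≤ V) (hP : q + V + w = q₁ + V₁ + w₁) :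
    CH (Pool.Agent.H49.Ent.cond F.p A True)
        (fun ω => (vb2 F σ w q V H X a s t ω, ctx F σ w q V H a s t ω))
        (fun ω => (ctx F σ w₁ q₁ V₁ H a₁ s₁ t₁ ω, gt F a' s' t' ω)) ≤
      3 * Real.log (2 * D + 1) +
        2 * (3 * Real.log (4 * 3 * (2 * D + 2 * D ^ 2 + 1) + 3)) := by
  have hA : ∀ ω, 0 < Pool.Agent.H49.Ent.cond F.p A True ω → A ω := fun ω hω =>
    of_eq_true ((cond_pos_iff F.isLaw.nonneg A True ω).1 hω).2
  have h0 := hQ.nonneg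
  obtain ⟨D', hD'⟩ : ∃ D', D' = 2 * D + 2 * D ^ 2 + 1 := ⟨_, rfl⟩
  have hD'1 : 1 ≤ D' := by rw [hD']; nlinarith [sq_nonneg D]
  have bd : ∀ (x : ℝ) (n u v : ℕ), |x| ≤ D' / 2 ^ n → v ≤ n + u → |x| ≤ D' * 2 ^ u / 2 ^ v := by
    intro x n u v hx huv
    refine hx.trans ?_
    rw [div_le_div_iff₀ (by positivity) (by positivity)]
    have e1 : (2 : ℝ) ^ v ≤ 2 ^ (n + u) := pow_le_pow_right₀ (by norm_num) huv
    rw [pow_add] at e1
    have e2 : 0 ≤ D' := by linarith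
    nlinarith [mul_le_mul_of_nonneg_left e1 e2]
  have k1 : CH (Pool.Agent.H49.Ent.cond F.p A True)
      (F.mlb w (kq w q V H X) (cv (q + X) V H) (fr σ a s t))
      (fun ω => ((t ω, (s ω, a ω)), (ctx F σ w₁ q₁ V₁ H a₁ s₁ t₁ ω, gt F a' s' t' ω))) ≤
      2 * ((3 : ℕ) * Real.log (4 * (3 : ℕ) * D' + 3)) := by
    refine Box.CH_mlb (F := F) (g := w₁) (g' := w) (k := fun i => cv q₁ V₁ H i + w₁)
      (c := cv q₁ V₁ H) (kk := fun i => cv q₁ V₁ H i + w₁) (M := fr σ a₁ s₁ t₁) hQ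
      (by omega) hw (by linarith) (fun _ => le_rfl) (fun i => by
        have : min w₁ w = w₁ := min_eq_left (by omega)
        rw [this]) ?_ _ ?_
    · intro ω hω
      obtain ⟨n1, n2, n3⟩ := frg_near hF hF₁ hD (by omega : V₁ ≤ V) le_rfl (hA ω hω)
      rw [← hD'] at n1 n2 n3
      refine ⟨_, Box.cg_tfr σ (a₁ ω) (s₁ ω) (t₁ ω) (a ω) (s ω) (t ω), ?_, ?_⟩
      · refine Box.tch_le hD'1 ?_ ?_ ?_ ?_ ?_ ?_
        · show q + w + X ≤ q₁ + w₁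
          omega
        · show q + V + w ≤ q₁ + V₁ + w₁
          omega
        · show q + (V + H) + w ≤ q₁ + (V₁ + H) + w₁
          omega
        · refine bd _ _ _ _ n1 ?_
          show q + V + w ≤ V₁ + (q₁ + w₁)
          omega
        · refine bd _ _ _ _ n2 ?_
          show q + (V + H) + w ≤ H + (q₁ + V₁ + w₁)
          omega
        · refine bd _ _ _ _ n3 ?_
          show q + (V + H) + w ≤ V₁ + H + (q₁ + w₁)
          omega
      · refine Box.tch_le hD'1 ?_ ?_ ?_ ?_ ?_ ?_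
        · show q + X ≤ q₁
          omega
        · show q + X + V ≤ q₁ + V₁
          omega
        · show q + X + (V + H) ≤ q₁ + (V₁ + H)
          omega
        · refine bd _ _ _ _ n1 ?_
          show q + X + V ≤ V₁ + q₁
          omega
        · refine bd _ _ _ _ n2 ?_
          show q + X + (V + H) ≤ H + (q₁ + V₁)
          omega
        · refine bd _ _ _ _ n3 ?_
          show q + X + (V + H) ≤ V₁ + H + q₁
          omega
    · intro ω ω' _ _ h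
      have h1 := Prod.ext_iff.mp h
      have h2 := Prod.ext_iff.mp h1.2
      have h3 := Prod.ext_iff.mp h1.1
      have h4 := Prod.ext_iff.mp h3.2
      refine ⟨h2.1, Lab.T1_of_T (gt_ext h2.2).1, ?_⟩
      show tfr σ (a ω) (s ω) (t ω) = tfr σ (a ω') (s ω') (t ω')
      have e1 : t ω = t ω' := h3.1
      have e2 : s ω = s ω' := h4.1
      have e3 : a ω = a ω' := h4.2
      rw [e1, e2, e3]
  have k2 := CH_fr hF hD hQ (ctx F σ w₁ q₁ V₁ H a₁ s₁ t₁)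
  have k3 := CH_le_add h0 (fun ω => (vb2 F σ w q V H X a s t ω, ctx F σ w q V H a s t ω))
    (fun ω => (t ω, (s ω, a ω)))
    (fun ω => (ctx F σ w₁ q₁ V₁ H a₁ s₁ t₁ ω, gt F a' s' t' ω))
  have k4 : CH (Pool.Agent.H49.Ent.cond F.p A True)
      (fun ω => (vb2 F σ w q V H X a s t ω, ctx F σ w q V H a s t ω))
      (fun ω => ((t ω, (s ω, a ω)), (ctx F σ w₁ q₁ V₁ H a₁ s₁ t₁ ω, gt F a' s' t' ω))) ≤
      CH (Pool.Agent.H49.Ent.cond F.p A True)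
        (F.mlb w (kq w q V H X) (cv (q + X) V H) (fr σ a s t))
        (fun ω => ((t ω, (s ω, a ω)), (ctx F σ w₁ q₁ V₁ H a₁ s₁ t₁ ω, gt F a' s' t' ω))) :=
    CH_mono_left h0 fun ω ω' _ _ h => by
      obtain ⟨e1, e2⟩ := vb2_of_mlb (Prod.ext_iff.mp h).1
      exact Prod.ext e2 e1
  rw [hD'] at k1
  push_cast at k1
  linarith

theorem dg_near {x y c : ℝ} {X : ℕ} (h : |2 ^ X * x - 2 ^ X * y| ≤ c) :
    |((⌊(2 : ℝ) ^ X * x⌋ - ⌊(2 : ℝ) ^ X * y⌋ : ℤ) : ℝ)| ≤ c + 1 := Plk.floor_sub_lt h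

theorem of_dg {x y : ℝ} {X : ℕ} (h : ⌊(2 : ℝ) ^ X * x⌋ = ⌊(2 : ℝ) ^ X * y⌋) :
    |2 ^ X * x - 2 ^ X * y| ≤ 1 := Plk.abs_sub_lt_of_floor h

/-- The rows of two contexts with the same rows `q + V + w`: the second one is known given the
first one. -/
theorem h2_row2 (hσ : Function.Injective σ) (hF : Frg F A w V H D a s t a' s' t')
    {w₁ q₁ V₁ : ℕ} {a₁ s₁ t₁ : F.Ω → ℝ} (hF₁ : Frg F A w₁ V₁ H D a₁ s₁ t₁ a' s' t')
    (hD : 0 ≤ D) (hQ : IsLaw (Pool.Agent.H49.Ent.cond F.p A True)) (hw : w ≤ J) (hw₁ : w₁ ≤ J)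
    (hV : V₁ ≤ V) (hP : q + V + w = q₁ + V₁ + w₁) :
    CH (Pool.Agent.H49.Ent.cond F.p A True)
        (Pool.OCV.dgv X (nu2 F σ w₁ q₁ V₁ H X a₁ s₁ t₁ a' s' t'))
        (fun ω => (Pool.OCV.dgv X (nu2 F σ w q V H X a s t a' s' t') ω,
          (ctx F σ w q V H a s t ω, (ctx F σ w₁ q₁ V₁ H a₁ s₁ t₁ ω, gt F a' s' t' ω)))) ≤
      2 * Real.log (2 * ((4 * (2 + 2 * (D + D * D)) + 1) +
        (2 * D + 2 * D ^ 2 + 1) * (2 * (2 + 2 * (D + D * D)) + 1) + 1) + 1) := by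
  have hA : ∀ ω, 0 < Pool.Agent.H49.Ent.cond F.p A True ω → A ω := fun ω hω =>
    of_eq_true ((cond_pos_iff F.isLaw.nonneg A True ω).1 hω).2
  obtain ⟨c, hc⟩ : ∃ c, c = 2 + 2 * (D + D * D) := ⟨_, rfl⟩
  have hc0 : 0 ≤ c := by rw [hc]; positivity
  obtain ⟨D', hD'⟩ : ∃ D', D' = 2 * D + 2 * D ^ 2 + 1 := ⟨_, rfl⟩
  have hD'0 : 0 ≤ D' := by rw [hD']; positivity
  have hX : (0 : ℝ) < 2 ^ X := by positivity
  refine (Plk.CH_vec_const hQ _ _ (c := (4 * c + 1) + D' * (2 * c + 1) + 1) ?_).trans (le_of_eq ?_)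
  · intro ω ω' hω hω' h i
    obtain ⟨h1, h2⟩ := Prod.ext_iff.mp h
    obtain ⟨h3, h4⟩ := Prod.ext_iff.mp h2
    obtain ⟨h5, h6⟩ := Prod.ext_iff.mp h4
    simp only at h1 h3 h5 h6
    obtain ⟨f1, f2, f3⟩ := ctx_frm hσ h3
    obtain ⟨l1, l2, l3⟩ := ctx_frm hσ h5
    obtain ⟨g0, g1, g2, g3⟩ := gt_ext h6
    obtain ⟨n1, n2⟩ := nu2_near (σ := σ) (q := q) (X := X) hF hD hw (hA ω hω)
    obtain ⟨n1', n2'⟩ := nu2_near (σ := σ) (q := q) (X := X) hF hD hw (hA ω' hω')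
    obtain ⟨m1, m2⟩ := nu2_near (σ := σ) (q := q₁) (X := X) hF₁ hD hw₁ (hA ω hω)
    obtain ⟨m1', m2'⟩ := nu2_near (σ := σ) (q := q₁) (X := X) hF₁ hD hw₁ (hA ω' hω')
    obtain ⟨-, d2, -⟩ := frg_near hF hF₁ hD hV le_rfl (hA ω hω)
    rw [← hc] at n1 n2 n1' n2' m1 m2 m1' m2'
    rw [← hD'] at d2
    rw [← f2, ← g1, ← g2, ← g3] at n2'
    rw [← g1] at n1' m1'
    rw [← l2, ← g1, ← g2, ← g3] at m2'
    have e1 : q + V + w = q₁ + V₁ + w₁ := hP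
    have e2 : q + (V + H) + w = q₁ + (V₁ + H) + w₁ := by omega
    rw [← e1] at m1 m1'
    rw [← e2] at m2 m2'
    obtain ⟨u, hu⟩ : ∃ u, u = 2 ^ (q + V + w) * Eu σ (a' ω) (F.x ω) := ⟨_, rfl⟩
    obtain ⟨u', hu'⟩ : ∃ u', u' = 2 ^ (q + V + w) * Eu σ (a' ω) (F.x ω') := ⟨_, rfl⟩
    rw [← hu] at n1 m1
    rw [← hu'] at n1' m1'
    have hX2 : ∀ {x y : ℝ}, |x - y| ≤ c / 2 ^ X → |2 ^ X * x - 2 ^ X * y| ≤ c := by
      intro x y hxy
      rw [← mul_sub, abs_mul, abs_of_pos hX]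
      calc (2 : ℝ) ^ X * |x - y| ≤ 2 ^ X * (c / 2 ^ X) := mul_le_mul_of_nonneg_left hxy hX.le
        _ = c := by field_simp
    have z0 : |2 ^ X * nu2 F σ w q V H X a s t a' s' t' ω 0 -
        2 ^ X * nu2 F σ w q V H X a s t a' s' t' ω' 0| ≤ 1 := of_dg (congrFun h1 0)
    have z1 : |2 ^ X * nu2 F σ w q V H X a s t a' s' t' ω 1 -
        2 ^ X * nu2 F σ w q V H X a s t a' s' t' ω' 1| ≤ 1 := of_dg (congrFun h1 1)
    -- the exact positions in the second coordinate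
    have y0 : |2 ^ X * u - 2 ^ X * u'| ≤ 2 * c + 1 := by
      have b1 := hX2 n1
      have b2 := hX2 n1'
      rw [abs_le] at b1 b2 z0 ⊢
      constructor <;> linarith
    have E : ∀ v : F.Ω, 2 ^ (q + (V + H) + w) * (EN σ (a' ω) (s' ω) (t' ω) (F.x v) -
        s₁ ω * Eu σ (a' ω) (F.x v)) =
        2 ^ (q + (V + H) + w) * (EN σ (a' ω) (s' ω) (t' ω) (F.x v) -
        s ω * Eu σ (a' ω) (F.x v)) + (2 ^ H * (s ω - s₁ ω)) *
          (2 ^ (q + V + w) * Eu σ (a' ω) (F.x v)) := by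
      intro v
      have e : (2 : ℝ) ^ (q + (V + H) + w) = 2 ^ H * 2 ^ (q + V + w) := by
        rw [← pow_add]
        congr 1
        omega
      rw [e]
      ring
    rw [E ω, ← hu] at m2
    rw [E ω', ← hu'] at m2'
    have ds : |2 ^ H * (s ω - s₁ ω)| ≤ D' := by
      rw [abs_mul, abs_of_pos (by positivity : (0 : ℝ) < 2 ^ H)]
      calc (2 : ℝ) ^ H * |s ω - s₁ ω| ≤ 2 ^ H * (D' / 2 ^ H) :=
            mul_le_mul_of_nonneg_left d2 (by positivity)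
        _ = D' := by field_simp
    show |((⌊(2 : ℝ) ^ X * nu2 F σ w₁ q₁ V₁ H X a₁ s₁ t₁ a' s' t' ω i⌋ -
      ⌊(2 : ℝ) ^ X * nu2 F σ w₁ q₁ V₁ H X a₁ s₁ t₁ a' s' t' ω' i⌋ : ℤ) : ℝ)| ≤ _
    refine dg_near ?_
    have b1 := hX2 n2
    have b2 := hX2 n2'
    have b3 := hX2 m1
    have b4 := hX2 m1'
    have b5 := hX2 m2
    have b6 := hX2 m2'
    have b7 : |(2 ^ H * (s ω - s₁ ω)) * (2 ^ X * u - 2 ^ X * u')| ≤ D' * (2 * c + 1) := by
      rw [abs_mul]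
      exact mul_le_mul ds y0 (abs_nonneg _) hD'0
    have b8 : 0 ≤ D' * (2 * c + 1) := mul_nonneg hD'0 (by linarith)
    obtain ⟨p, hp⟩ : ∃ p, p = 2 ^ (q + (V + H) + w) * (EN σ (a' ω) (s' ω) (t' ω) (F.x ω) -
      s ω * Eu σ (a' ω) (F.x ω)) := ⟨_, rfl⟩
    obtain ⟨p', hp'⟩ : ∃ p', p' = 2 ^ (q + (V + H) + w) * (EN σ (a' ω) (s' ω) (t' ω) (F.x ω') -
      s ω * Eu σ (a' ω) (F.x ω')) := ⟨_, rfl⟩
    obtain ⟨k, hk⟩ : ∃ k, k = 2 ^ H * (s ω - s₁ ω) := ⟨_, rfl⟩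
    rw [← hp, ← hk] at b5
    rw [← hp', ← hk] at b6
    rw [← hp] at b1
    rw [← hp'] at b2
    rw [← hk] at b7
    have b9 : k * (2 ^ X * u - 2 ^ X * u') = 2 ^ X * (k * u) - 2 ^ X * (k * u') := by ring
    rw [b9] at b7
    rw [mul_add] at b5 b6
    fin_cases i
    · show |2 ^ X * nu2 F σ w₁ q₁ V₁ H X a₁ s₁ t₁ a' s' t' ω 0 -
        2 ^ X * nu2 F σ w₁ q₁ V₁ H X a₁ s₁ t₁ a' s' t' ω' 0| ≤ _
      rw [abs_le] at y0 b3 b4 ⊢
      constructor <;> linarith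
    · show |2 ^ X * nu2 F σ w₁ q₁ V₁ H X a₁ s₁ t₁ a' s' t' ω 1 -
        2 ^ X * nu2 F σ w₁ q₁ V₁ H X a₁ s₁ t₁ a' s' t' ω' 1| ≤ _
      rw [abs_le] at b1 b2 z1 b5 b6 b7 ⊢
      constructor <;> linarith
  · rw [hc, hD']
    norm_num

end fam3

end Pool.S6H
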