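import Pool.Agent.H6.S6H.H3H
import Pool.Agent.H6.S6H.Hin
import Pool.Agent.H66.OC.Dec
import Pool.Agent.H45.OCV.Real

/-!
# The plateau of `R - varpi`: the dictionary for theorem OCV and the hypotheses on strips
-/

set_option autoImplicit false

namespace Pool.S6H

open Finset Real
open Pool.Agent.H49.Ent Pool.Agent.H32.Dense Pool.STK Pool.KA Pool.KSAT Pool.K2S Pool.S6N
open Pool.K2S.Uni (Pr_le_of)

section strip

variable {Ω Λ ξ : Type} [Fintype Ω] {p : Ω → ℝ}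

theorem Pr_ne (hp : ∀ ω, 0 ≤ p ω) (E : Set Ω) : 0 ≤ Pool.KAF.Pr p E := by
  classical
  rw [Pool.KAF.Pr_eq]
  refine Finset.sum_nonneg fun x _ => ?_
  split_ifs
  · exact hp x
  · exact le_rfl

theorem Pr_add_compl (hp : IsLaw p) (E : Set Ω) :
    Pool.KAF.Pr p E + Pool.KAF.Pr p Eᶜ = 1 := by
  classical
  rw [Pool.KAF.Pr_eq, Pool.KAF.Pr_eq, ← Finset.sum_add_distrib, ← hp.sum_one]
  refine Finset.sum_congr rfl fun x _ => ?_
  by_cases h : x ∈ E
  · simp [h]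
  · simp [h]

theorem isLaw_fib (hp : IsLaw p) (g : Ω → Λ) {x : Ω} (hx : 0 < p x) :
    IsLaw (Pool.Agent.H49.Ent.cond p g (g x)) :=
  Pool.OC.isLaw_cond hp g hx

/-- The strip hypothesis gives (H6a). -/
theorem h6a_of {c : ℕ} (i₀ : Fin c) (hp : IsLaw p) {L : Ω → Λ} {S : Ω → Fin c → ℝ} {X : ℕ}
    {x₀ ε : ℝ} (h : NoStrip p L S X x₀ ε) : Pool.OCV.H6aR p L S X x₀ (1 / 4) ε := by
  refine le_trans (Pr_le_of hp.nonneg fun ω hω hE => ?_) h
  have hE' : Pool.KAF.Pr (Pool.Agent.H49.Ent.cond p L (L ω))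
    {ρ | ∃ i, (2 : ℝ) ^ (-(x₀ * X)) ≤ |S ρ i - S ω i|} < 1 / 4 := hE
  have hl := isLaw_fib hp L hω
  have h1 := Pr_add_compl hl {ρ | ∃ i, (2 : ℝ) ^ (-(x₀ * X)) ≤ |S ρ i - S ω i|}
  refine ⟨Pi.single i₀ 1, S ω i₀, fun i => ?_, ⟨i₀, ?_⟩, ?_⟩
  · by_cases h2 : i = i₀
    · rw [h2, Pi.single_eq_same, abs_one]
    · rw [Pi.single_eq_of_ne h2, abs_zero]
      exact zero_le_one
  · rw [Pi.single_eq_same, abs_one]
  · have h3 : Pool.KAF.Pr (Pool.Agent.H49.Ent.cond p L (L ω))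
        {ρ | ∃ i, (2 : ℝ) ^ (-(x₀ * X)) ≤ |S ρ i - S ω i|}ᶜ ≤
        Pool.KAF.Pr (Pool.Agent.H49.Ent.cond p L (L ω))
        {ρ | |∑ i, (Pi.single i₀ 1 : Fin c → ℝ) i * S ρ i - S ω i₀| <
          (2 : ℝ) ^ (-(x₀ * X))} := by
      refine Pr_le_of hl.nonneg fun ρ _ hρ => ?_
      have h4 : ¬ ∃ i, (2 : ℝ) ^ (-(x₀ * X)) ≤ |S ρ i - S ω i| := hρ
      show |∑ i, (Pi.single i₀ 1 : Fin c → ℝ) i * S ρ i - S ω i₀| < (2 : ℝ) ^ (-(x₀ * X))
      rw [Finset.sum_eq_single i₀]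
      · rw [Pi.single_eq_same, one_mul]
        by_contra h5
        exact h4 ⟨i₀, not_lt.1 h5⟩
      · intro b _ hb
        rw [Pi.single_eq_of_ne hb, zero_mul]
      · intro hb
        exact absurd (Finset.mem_univ _) hb
    linarith

/-- The strip hypothesis gives (H6b) for every point which contains the slope. -/
theorem h6b_of {c : ℕ} (hp : IsLaw p) {L : Ω → Λ} {S : Ω → Fin c → ℝ} {pt : Ω → ξ} {X : ℕ}
    {x₀ ε : ℝ} (hS : Det p pt S) (h : NoStrip p L S X x₀ ε) :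
    Pool.OCV.H6bR p L pt S X x₀ (1 / 4) (2 * ε) := by
  classical
  obtain ⟨B, hB⟩ : ∃ B : Set Ω, B = {ω | ∃ (n : Fin c → ℝ) (z : ℝ), (∀ i, |n i| ≤ 1) ∧
    (∃ i, |n i| = 1) ∧ 1 / 2 < Pool.KAF.Pr (Pool.Agent.H49.Ent.cond p L (L ω))
      {ρ | |∑ i, n i * S ρ i - z| < (2 : ℝ) ^ (-(x₀ * X))}} := ⟨_, rfl⟩
  have hB' : Pool.KAF.Pr p B ≤ ε := by
    rw [hB]
    exact h
  -- the points where the bad lines are half of the lines
  have h1 : Pool.KAF.Pr p {ω | ∃ n : Fin c → ℝ, (∀ i, |n i| ≤ 1) ∧ (∃ i, |n i| = 1) ∧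
    ∑ ω', Pool.Agent.H49.Ent.cond p pt (pt ω) ω' *
      Pool.KAF.Pr (Pool.Agent.H49.Ent.cond p L (L ω'))
        {ρ | (2 : ℝ) ^ (-(x₀ * X)) ≤ |∑ i, n i * (S ρ i - S ω i)|} < 1 / 4} ≤
      Pool.KAF.Pr p {ω | 1 / 2 < ∑ ω', Pool.Agent.H49.Ent.cond p pt (pt ω) ω' *
        (if ω' ∈ B then 1 else 0)} := by
    refine Pr_le_of hp.nonneg fun ω hω hE => ?_
    obtain ⟨n, hn1, hn2, hn3⟩ := hE
    have hl := isLaw_fib hp pt hω
    show 1 / 2 < ∑ ω', Pool.Agent.H49.Ent.cond p pt (pt ω) ω' * (if ω' ∈ B then 1 else 0)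
    by_contra hcon
    rw [not_lt] at hcon
    have h2 : ∀ ω', Pool.Agent.H49.Ent.cond p pt (pt ω) ω' * (1 / 2) -
        Pool.Agent.H49.Ent.cond p pt (pt ω) ω' * (if ω' ∈ B then 1 else 0) * (1 / 2) ≤
        Pool.Agent.H49.Ent.cond p pt (pt ω) ω' *
        Pool.KAF.Pr (Pool.Agent.H49.Ent.cond p L (L ω'))
        {ρ | (2 : ℝ) ^ (-(x₀ * X)) ≤ |∑ i, n i * (S ρ i - S ω i)|} := by
      intro ω'
      rcases (hl.nonneg ω').eq_or_lt with h0 | h0
      · rw [← h0]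
        simp
      · obtain ⟨q1, q2⟩ := (cond_pos_iff hp.nonneg _ _ ω').1 h0
        have hl' := isLaw_fib hp L q1
        have hn := Pr_ne hl'.nonneg
          {ρ | (2 : ℝ) ^ (-(x₀ * X)) ≤ |∑ i, n i * (S ρ i - S ω i)|}
        by_cases hb : ω' ∈ B
        · rw [if_pos hb]
          have := mul_nonneg h0.le hn
          linarith
        · rw [if_neg hb]
          have h3 : 1 / 2 ≤ Pool.KAF.Pr (Pool.Agent.H49.Ent.cond p L (L ω'))
              {ρ | (2 : ℝ) ^ (-(x₀ * X)) ≤ |∑ i, n i * (S ρ i - S ω i)|} := by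
            by_contra h4
            rw [not_le] at h4
            refine hb ?_
            rw [hB]
            refine ⟨n, ∑ i, n i * S ω i, hn1, hn2, ?_⟩
            have h5 := Pr_add_compl hl'
              {ρ | (2 : ℝ) ^ (-(x₀ * X)) ≤ |∑ i, n i * (S ρ i - S ω i)|}
            have h6 : Pool.KAF.Pr (Pool.Agent.H49.Ent.cond p L (L ω'))
              {ρ | (2 : ℝ) ^ (-(x₀ * X)) ≤ |∑ i, n i * (S ρ i - S ω i)|}ᶜ ≤
              Pool.KAF.Pr (Pool.Agent.H49.Ent.cond p L (L ω'))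
              {ρ | |∑ i, n i * S ρ i - ∑ i, n i * S ω i| < (2 : ℝ) ^ (-(x₀ * X))} := by
              refine Pr_le_of hl'.nonneg fun ρ _ hρ => ?_
              have h7 : ¬ (2 : ℝ) ^ (-(x₀ * X)) ≤ |∑ i, n i * (S ρ i - S ω i)| := hρ
              rw [not_le] at h7
              show |∑ i, n i * S ρ i - ∑ i, n i * S ω i| < (2 : ℝ) ^ (-(x₀ * X))
              rw [← Finset.sum_sub_distrib]
              simp only [mul_sub] at h7
              exact h7
            linarith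
          have := mul_le_mul_of_nonneg_left h3 h0.le
          linarith
    have h3 := Finset.sum_le_sum fun ω' (_ : ω' ∈ (univ : Finset Ω)) => h2 ω'
    rw [Finset.sum_sub_distrib, ← Finset.sum_mul, ← Finset.sum_mul, hl.sum_one] at h3
    linarith
  refine h1.trans ?_
  have h2 := Pool.OC.tower hp.nonneg pt (fun ω' => if ω' ∈ B then (1 : ℝ) else 0)
  have h3 : ∑ ω, p ω * (if ω ∈ B then (1 : ℝ) else 0) = Pool.KAF.Pr p B := by
    rw [Pool.KAF.Pr_eq]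
    refine Finset.sum_congr rfl fun x _ => ?_
    by_cases hx : x ∈ B
    · rw [if_pos hx, if_pos hx, mul_one]
    · rw [if_neg hx, if_neg hx, mul_zero]
  rw [h3] at h2
  have h4 : 1 / 2 * Pool.KAF.Pr p {ω | 1 / 2 < ∑ ω', Pool.Agent.H49.Ent.cond p pt (pt ω) ω' *
        (if ω' ∈ B then 1 else 0)} ≤ ∑ ω, p ω * ∑ ω',
        Pool.Agent.H49.Ent.cond p pt (pt ω) ω' * (if ω' ∈ B then (1 : ℝ) else 0) := by
    rw [Pool.KAF.Pr_eq, Finset.mul_sum]
    refine Finset.sum_le_sum fun x _ => ?_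
    have h5 : 0 ≤ ∑ ω', Pool.Agent.H49.Ent.cond p pt (pt x) ω' *
        (if ω' ∈ B then (1 : ℝ) else 0) := by
      refine Finset.sum_nonneg fun y _ => mul_nonneg (cond_nonneg hp.nonneg _ _ y) ?_
      split_ifs
      · exact zero_le_one
      · exact le_rfl
    by_cases hx : x ∈ {ω | 1 / 2 < ∑ ω', Pool.Agent.H49.Ent.cond p pt (pt ω) ω' *
        (if ω' ∈ B then (1 : ℝ) else 0)}
    · rw [if_pos hx]
      have h6 : 1 / 2 < ∑ ω', Pool.Agent.H49.Ent.cond p pt (pt x) ω' *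
        (if ω' ∈ B then (1 : ℝ) else 0) := hx
      have := mul_le_mul_of_nonneg_left h6.le (hp.nonneg x)
      linarith
    · rw [if_neg hx, mul_zero]
      exact mul_nonneg (hp.nonneg x) h5
  linarith

end strip

variable {J : ℕ} {F : Fam 3 J} {A : F.Ω → Prop} {σ : Fin 3 → Fin 3} {w q V H X : ℕ} {D : ℝ}
  {a s t a' s' t' : F.Ω → ℝ}

theorem wt_det {ω ω' : F.Ω} (h : F.T ω = F.T ω') : F.wt w ω = F.wt w ω' := by
  unfold Fam.wt
  rw [h]

/-- **The dictionary** for theorem OCV: the visible part is the whole context. -/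
theorem ocvdata (hF : Frg F A w V H D a s t a' s' t')
    (hQ : IsLaw (Pool.Agent.H49.Ent.cond F.p A True)) :
    Pool.OCV.OCVData (D + D * D) (Pool.Agent.H49.Ent.cond F.p A True) (ctx F σ w q V H a s t)
      (LL F σ w q V H X a s t) (T2 F a s t a' s' t') (ctx F σ w q V H a s t)
      (yy F σ w q V H X a s t 0) (om F σ q V H X a s t 0)
      (fun ω (i : Fin 2) => om F σ q V H X a s t i.succ ω)
      (fun ω (i : Fin 2) => yy F σ w q V H X a s t i.succ ω) (F.wt w)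
      (S2 V H a s t a' s' t') (kn2 F σ w q V H a s t a' s' t')
      (nu2 F σ w q V H X a s t a' s' t') := by
  have hA : ∀ ω, 0 < Pool.Agent.H49.Ent.cond F.p A True ω → A ω := fun ω hω =>
    of_eq_true ((cond_pos_iff F.isLaw.nonneg A True ω).1 hω).2
  refine ⟨hQ, ?_, ?_, ?_, ?_, ?_, ?_, ?_, ?_, ?_, ?_, ?_, ?_, ?_, ?_, ?_⟩
  · intro ω ω' _ _ h
    exact (LL_ext h).2
  · intro ω ω' _ _ h
    exact (Prod.ext_iff.mp h).1
  · intro ω ω' _ _ h
    exact yy_det (LL_ext h).1 0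
  · intro ω ω' _ _ h
    exact om_det (LL_ext h).1 0
  · intro ω ω' _ _ h
    funext i
    exact om_det (LL_ext h).1 i.succ
  · intro ω ω' _ _ h
    funext i
    exact yy_det (LL_ext h).1 i.succ
  · intro ω ω' _ _ h
    exact wt_det (gt_ext (T2_ext h).2).1
  · intro ω ω' _ _ h
    exact S2_det (T2_ext h).1 (T2_ext h).2
  · intro ω ω' _ _ h
    exact kn2_det (Prod.ext_iff.mp h).1 (Prod.ext_iff.mp h).2
  · intro ω _
    exact yy_mem 0 ω
  · intro ω _
    exact om_mem 0 ω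
  · intro ω _ i
    exact om_mem i.succ ω
  · intro ω _
    exact Lab.wt_mem F w ω
  · intro ω hω i
    exact S2_le hF (hA ω hω) i
  · intro ω _ i
    rfl

/-- The generalised time in the context. -/
theorem T2_of (hσ : Function.Injective σ) {ω ω' : F.Ω}
    (h : ctx F σ w q V H a s t ω = ctx F σ w q V H a s t ω')
    (h' : gt F a' s' t' ω = gt F a' s' t' ω') :
    T2 F a s t a' s' t' ω = T2 F a s t a' s' t' ω' := by
  obtain ⟨e1, e2, e3⟩ := ctx_frm hσ h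
  unfold T2
  rw [e1, e2, e3, h']

/-- Entropies given the context and the generalised time. -/
theorem CH_T2 {p : F.Ω → ℝ} (h0 : ∀ ω, 0 ≤ p ω) (hσ : Function.Injective σ) {S : Type}
    (n : F.Ω → S) :
    CH p n (fun ω => (ctx F σ w q V H a s t ω, T2 F a s t a' s' t' ω)) =
      CH p n (fun ω => (ctx F σ w q V H a s t ω, gt F a' s' t' ω)) := by
  refine CH_congr h0 (fun _ _ _ _ h => (Prod.ext_iff.mp h).1)
    (fun _ _ _ _ h => (Prod.ext_iff.mp h).1) ?_ ?_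
  · intro ω ω' _ _ h
    exact Prod.ext (Prod.ext_iff.mp h).1 (T2_ext (Prod.ext_iff.mp h).2).2
  · intro ω ω' _ _ h
    exact Prod.ext (Prod.ext_iff.mp h).1 (T2_of hσ (Prod.ext_iff.mp h).1 (Prod.ext_iff.mp h).2)

theorem CH_T2' {p : F.Ω → ℝ} (h0 : ∀ ω, 0 ≤ p ω) (hσ : Function.Injective σ) {S R : Type}
    (n : F.Ω → S) (v : F.Ω → R) :
    CH p n (fun ω => (v ω, (ctx F σ w q V H a s t ω, T2 F a s t a' s' t' ω))) =
      CH p n (fun ω => (v ω, (ctx F σ w q V H a s t ω, gt F a' s' t' ω))) := by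
  refine CH_congr h0 (fun _ _ _ _ h => (Prod.ext_iff.mp h).1)
    (fun _ _ _ _ h => (Prod.ext_iff.mp h).1) ?_ ?_
  · intro ω ω' _ _ h
    have h1 := Prod.ext_iff.mp h
    have h2 := Prod.ext_iff.mp h1.2
    exact Prod.ext h1.1 (Prod.ext h2.1 (T2_ext h2.2).2)
  · intro ω ω' _ _ h
    have h1 := Prod.ext_iff.mp h
    have h2 := Prod.ext_iff.mp h1.2
    exact Prod.ext h1.1 (Prod.ext h2.1 (T2_of hσ h2.1 h2.2))

/-- The information of the line and the generalised time. -/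
theorem MI_T2 {p : F.Ω → ℝ} (h0 : ∀ ω, 0 ≤ p ω) (hσ : Function.Injective σ) :
    Pool.KVA.MI p (T2 F a s t a' s' t') (LL F σ w q V H X a s t) (ctx F σ w q V H a s t) =
      Pool.KVA.MI p (gt F a' s' t') (blk F σ w q V H X a s t) (ctx F σ w q V H a s t) := by
  rw [Pool.OCV.MI_eq h0, Pool.OCV.MI_eq h0]
  have e1 : CH p (T2 F a s t a' s' t') (ctx F σ w q V H a s t) =
      CH p (gt F a' s' t') (ctx F σ w q V H a s t) := by
    refine CH_congr h0 ?_ ?_ (fun _ _ _ _ h => h) (fun _ _ _ _ h => h)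
    · intro ω ω' _ _ h
      exact (T2_ext (Prod.ext_iff.mp h).1).2
    · intro ω ω' _ _ h
      exact T2_of hσ (Prod.ext_iff.mp h).2 (Prod.ext_iff.mp h).1
  have e2 : CH p (T2 F a s t a' s' t')
      (fun ω => (LL F σ w q V H X a s t ω, ctx F σ w q V H a s t ω)) =
      CH p (gt F a' s' t') (fun ω => (blk F σ w q V H X a s t ω, ctx F σ w q V H a s t ω)) := by
    refine CH_congr h0 ?_ ?_ ?_ ?_
    · intro ω ω' _ _ h
      exact (T2_ext (Prod.ext_iff.mp h).1).2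
    · intro ω ω' _ _ h
      exact T2_of hσ (Prod.ext_iff.mp (Prod.ext_iff.mp h).2).2 (Prod.ext_iff.mp h).1
    · intro ω ω' _ _ h
      exact (Prod.ext_iff.mp h).1
    · intro ω ω' _ _ h
      exact Prod.ext h (Prod.ext_iff.mp h).2
  rw [e1, e2]

end Pool.S6H
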